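import Pool.Agent.Q192.PG.Main
import Pool.Agent.Q192.PI.BFin

/-!
# Project PG: assembly, small distortion on the unstable bundle
-/

set_option autoImplicit false
set_option linter.unusedSectionVars false

open Filter Topology Set Metric
open scoped Manifold ContDiff Pointwise

namespace Pool.Agent.Q192.PG

open Pool.Agent.H721R2 Pool.Agent.H779R2.An Pool.Agent.Q130.UQ Pool.Agent.H789R2.AN
  Pool.Agent.H789R2.GP Pool.Agent.TH304.K289 Pool.Agent.TH289.L Pool.Agent.Y330.H Pool.Agent.Y330.G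
  Pool.Agent.Y330.J Pool.Agent.Q192.PI Pool.Agent.Q192.PI.B Pool.Agent.TH289.K Pool.Agent.TH289

universe u v

/-- Part B of project PI with the bound for the images of balls. -/
theorem absB' {X : Type u} {E : Type v} [MetricSpace X] [CompactSpace X] [PreconnectedSpace X]
    [Nonempty X] [NormedAddCommGroup E] [InnerProductSpace ℝ E] [FiniteDimensional ℝ E]
    (S : HypSys X E) (D ms : ℕ) (α β K₁ K : ℝ) (hD : 2 ≤ D)
    (hfu : ∀ x, Module.finrank ℝ (S.Vu x) = D) (hα : S.a < α) (hβ : S.b < β) (hα1 : α ≤ 1 / 2)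
    (hβ1 : β ≤ 1 / 2) (hK₁ : 1 ≤ K₁) (hK : K₁ < K)
    (hdist : ∀ x, ∀ v ∈ S.Vu x, ∀ w ∈ S.Vu x, ‖S.D x v‖ * ‖w‖ ≤ K₁ * (‖S.D x w‖ * ‖v‖))
    (hms : 4 * S.Ls ≤ ms)
    (hgr : 2 * D * Real.log K * (Real.log ms - Real.log α⁻¹) < Real.log α⁻¹ * Real.log β⁻¹) :
    ∃ (ε₀ Q L R σ η b : ℝ) (ψ : X → V D → X), Sc S ε₀ Q α β K L ∧ Cht S D ε₀ R ψ ∧
      Scale ε₀ R Q L σ η b ∧ WL S D σ η β K R ψ univ := by
  obtain ⟨a₀⟩ := (inferInstance : Nonempty X)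
  have H := lem.{u, v}
  obtain ⟨ε₀, Q, L, R, ψ, hS, hC⟩ := H.h13 X E S D α β K₁ K hfu hα hβ hα1 hβ1 hK₁ hK hdist
  have hG := hS.geo
  have hε0 := hG.pos
  have hR := hC.pos
  have hQ := hS.Q1
  have hL := hS.L1
  have hQ0 : 0 < Q := by linarith
  have hL0 : 0 < L := by linarith
  obtain ⟨b, hb, hbR, hbε⟩ : ∃ b > 0, 64 * b ≤ R ∧ 64 * b ≤ ε₀ := by
    refine ⟨min (R / 64) (ε₀ / 64), lt_min (by positivity) (by positivity), ?_, ?_⟩
    · have := min_le_left (R / 64) (ε₀ / 64)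
      linarith
    · have := min_le_right (R / 64) (ε₀ / 64)
      linarith
  set σ := b / (65536 * Q * L) with hσ
  have hσ0 : 0 < σ := by positivity
  have hσb : 65536 * Q * L * σ = b := by rw [hσ]; field_simp
  set η := σ / (64 * Q) with hη
  have hη0 : 0 < η := by positivity
  have hησ : 64 * Q * η = σ := by rw [hη]; field_simp
  have hsc : Scale ε₀ R Q L σ η b := ⟨hη0, hησ.le, hσb.le, hbR, hbε⟩
  obtain ⟨-, -, f1, f2, f3, f4⟩ := hsc.facts hQ hL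
  have hLB : LB D := H.h2 D hD (Pool.Agent.Q210.UQ.loewner D hD)
  have hcell := H.h1 X E S ε₀ Q α β K L hS
  have hms1 : 1 ≤ ms := by
    have := S.one_le_Ls
    have h3 : (1 : ℝ) ≤ ms := by linarith
    exact_mod_cast h3
  have hnum := H.h14 α β K ms D hS.α0 (by linarith [hS.α1]) hS.β0 (by linarith [hS.β1]) hS.K1
    hms1 hgr
  have hTW : ∀ U : Set X, (∀ z ∈ U, S.g z ∈ U) → CB S σ η b U → WL S D σ η β K R ψ U := by
    intro U hU hCB
    have hBx := H.h6 X E S D ε₀ Q α β K L R σ η b ψ U hD hS hC hsc hCB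
    have hFn := H.h7 X E S D ε₀ Q α β K L R σ η b ψ (by omega) hS hC hsc hcell
    have hTL := H.h8 X E S D ε₀ Q α β K L R σ η b ψ U hD hS hC hsc hBx hFn hLB
    exact H.h9 X E S D ε₀ Q α β K L R σ η b ψ U hD hS hC hsc hU hcell hTL
  have hTR : ∀ U : Set X, (∀ z ∈ U, S.g z ∈ U) → CB S σ η b U → TR S D σ η R ψ U :=
    fun U hU hCB => H.h10 X E S D ε₀ Q α β K L R σ η b ψ U ms hS hC hsc (S.subdivide ms hms) hnum
      (hTW U hU hCB)
  have hun : USat S (Set.univ : Set X) := ⟨isClosed_univ, ⟨a₀, trivial⟩, fun _ _ => trivial,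
    fun _ _ => trivial, fun _ _ _ _ => trivial⟩
  obtain ⟨Λ, -, hΛ⟩ := Pool.Agent.Q182.UQ.minEx S _ hun
  have hCB : ∀ Λ, UMin S Λ → CB S σ η b (Ws S Λ) := fun Λ hΛ =>
    H.h4 X E S ε₀ σ η b hG (inf_disc hG hC (by omega)) hη0 (by linarith) (by linarith) hb
      (by linarith) Λ hΛ
  have hinv : ∀ Λ, UMin S Λ → ∀ z ∈ Ws S Λ, S.g z ∈ Ws S Λ := by
    rintro Λ hΛ z ⟨x, hx, hxz⟩
    exact ⟨S.g x, hΛ.map x hx, hxz.map⟩
  have hsat := H.h11 X E S D ε₀ R σ η ψ Λ hG hC (by linarith) hΛ (hTR _ (hinv Λ hΛ) (hCB Λ hΛ))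
  have hall : Λ = Set.univ := Pool.Agent.Q182.UQ.whole S hG Λ hΛ hsat
  subst hall
  have hW : Ws S (Set.univ : Set X) = Set.univ :=
    Set.eq_univ_of_forall fun y => ⟨y, trivial, SAsym.refl S y⟩
  have hT := hTW _ (hinv _ hΛ) (hCB _ hΛ)
  rw [hW] at hT
  exact ⟨ε₀, Q, L, R, σ, η, b, ψ, hS, hC, hsc, hT⟩

/-- The small distortion case for hyperbolic systems. -/
theorem pgB (h1 : SG1.{u}) (h2 : SG2.{u}) (h3 : SG3.{u}) (h7 : SG7.{u, v}) (h8 : SG8.{u, v})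
    (h9 : SG9.{u, v}) (h10 : SG10)
    {X : Type u} {E : Type v} [MetricSpace X] [CompactSpace X] [PreconnectedSpace X]
    [Nonempty X] [NormedAddCommGroup E] [InnerProductSpace ℝ E] [FiniteDimensional ℝ E]
    (S : HypSys X E) (hX : ULC X) (D ms : ℕ) (α β K₁ K : ℝ) (hD : 2 ≤ D)
    (hfu : ∀ x, Module.finrank ℝ (S.Vu x) = D) (hα : S.a < α) (hβ : S.b < β) (hα1 : α ≤ 1 / 2)
    (hβ1 : β ≤ 1 / 2) (hK₁ : 1 ≤ K₁) (hK : K₁ < K)
    (hdist : ∀ x, ∀ v ∈ S.Vu x, ∀ w ∈ S.Vu x, ‖S.D x v‖ * ‖w‖ ≤ K₁ * (‖S.D x w‖ * ‖v‖))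
    (hms : 4 * S.Ls ≤ ms)
    (hgr : 2 * D * Real.log K * (Real.log ms - Real.log α⁻¹) < Real.log α⁻¹ * Real.log β⁻¹)
    (hlf : ∀ a s, WS S.g a s → Lf S.g a s) : PG X := by
  obtain ⟨ε₀, Q, L, R, σ, η, b, ψ, hS, hC, hsc, hWL⟩ := absB' S D ms α β K₁ K hD hfu hα hβ hα1 hβ1
    hK₁ hK hdist hms hgr
  obtain ⟨c, hg⟩ := exists_LP S
  obtain ⟨c₁, hc₁, hs⟩ := exists_sl hg
  have hex : Ex S.g := ex_of_lf hg hc₁ hs hlf
  have hε0 := hS.geo.pos
  have hR := hC.pos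
  obtain ⟨e, he, C, hC0, hQT⟩ := h8 X E S D ε₀ Q α β K L R σ η b ψ hS hC hsc
    (h7 X E S D ε₀ Q α β K L R σ η ψ hS hC hWL)
  obtain ⟨ρ, hρ, hρe, hρε⟩ : ∃ ρ > 0, 2 * ρ ≤ e ∧ 2 * ρ ≤ ε₀ := by
    refine ⟨min e ε₀ / 2, by positivity, ?_, ?_⟩
    · have := min_le_left e ε₀
      linarith
    · have := min_le_right e ε₀
      linarith
  obtain ⟨δ, hδ, hδR⟩ : ∃ δ > 0, 32 * δ ≤ R := ⟨R / 32, by positivity, by linarith⟩
  obtain ⟨ds, hds⟩ := rank_const S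
  have hms1 : 1 ≤ ms := by
    have := S.one_le_Ls
    have h3 : (1 : ℝ) ≤ ms := by linarith
    exact_mod_cast h3
  set mu := ⌈4 * S.Lu⌉₊ with hmu
  have hmu' : 4 * S.Lu ≤ mu := Nat.le_ceil _
  have hmu1 : 1 ≤ mu := by
    have := S.one_le_Lu
    have h3 : (1 : ℝ) ≤ mu := by linarith
    exact_mod_cast h3
  have hr : Rad S.g ρ ms := Pool.Agent.Q237.PI.sA5 X E S ds ms hds hms ρ hρ
  have hr' : Rad S.g.symm δ mu := Pool.Agent.Q237.PI.sA5 X E S.symm D mu hfu hmu' δ hδ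
  obtain ⟨C', hC', hw⟩ := h9 X E S D ε₀ Q α β K L R σ η b c ψ e C hg hex hS hC hsc he hC0 hQT ρ δ
    ms mu hρ hρe hρε hδ hδR
  obtain ⟨A, hA⟩ := h10 α β K ms D hS.α0 (by linarith [hS.α1]) hS.β0 (by linarith [hS.β1]) hS.K1
    hms1 hgr
  obtain ⟨B, hB⟩ := hA C'
  refine pg_of h1 h2 h3 S.g c hg hX ρ δ ms mu hρ hδ hms1 hmu1 hr hr' A B fun n => ?_
  obtain ⟨k, T, hkT, g1, g2⟩ := hB n
  exact ⟨k + T, hkT, fun x z a ha => hw n k T g1 g2 x z a ha⟩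

section embedded

variable {E₀ : Type*} [NormedAddCommGroup E₀] [NormedSpace ℝ E₀] [FiniteDimensional ℝ E₀]
  {M : Type u} [MetricSpace M] [CompactSpace M] [ConnectedSpace M] [ChartedSpace E₀ M]
  [IsManifold 𝓘(ℝ, E₀) ∞ M]
  {F : Type v} [NormedAddCommGroup F] [InnerProductSpace ℝ F] [FiniteDimensional ℝ F]

/-- The embedded form. -/
theorem core_pg (h1 : SG1.{u}) (h2 : SG2.{u}) (h3 : SG3.{u}) (h7 : SG7.{u, v}) (h8 : SG8.{u, v})
    (h9 : SG9.{u, v}) (h10 : SG10) {e : M → F} (hiso : ∀ x y, dist x y = ‖e x - e y‖)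
    (he : ContMDiff 𝓘(ℝ, E₀) 𝓘(ℝ, F) 1 e) (hinj : ∀ x, Function.Injective (dm E₀ e x))
    {f : M ≃ₜ M} {Es Eu : M → Submodule ℝ E₀} {C a b Ls Lu : ℝ}
    (h : EAnosov e f Es Eu C a b Ls Lu) (D : ℕ) (hD : 2 ≤ D)
    (hrk : ∀ x, Module.finrank ℝ (Eu x) = D) (C₂ κ : ℝ) (hC₂ : 1 ≤ C₂) (hκ : 1 ≤ κ)
    (hd : ∀ (n : ℕ) (x : M), ∀ v ∈ Eu x, ∀ w ∈ Eu x,
      ‖dm E₀ e (f^[n] x) (dg E₀ (f^[n]) x v)‖ * ‖dm E₀ e x w‖ ≤
        C₂ * κ ^ n * (‖dm E₀ e (f^[n] x) (dg E₀ (f^[n]) x w)‖ * ‖dm E₀ e x v‖))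
    (hp : 2 * D * Real.log κ * (Real.log Ls - Real.log a⁻¹) < Real.log a⁻¹ * Real.log b⁻¹) :
    PG M := by
  obtain ⟨K, hK, hang⟩ := h.angle he hinj
  have hC := h.C_pos
  have hC0 : 0 < C := by linarith
  have ha0 := h.a_pos
  have hb0 := h.b_pos
  have hLs := h.Ls_le
  have hLs0 : 0 < Ls := by linarith
  have hκ0 : 0 < κ := by linarith
  have hC₂0 : 0 < C₂ := by linarith
  have t1 : Tendsto (fun n : ℕ => K * (C * a ^ n)) atTop (𝓝 0) := by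
    have := ((tendsto_pow_atTop_nhds_zero_of_lt_one h.a_pos.le h.a_lt).const_mul C).const_mul K
    simpa using this
  have t2 : Tendsto (fun n : ℕ => K * (C * b ^ n)) atTop (𝓝 0) := by
    have := ((tendsto_pow_atTop_nhds_zero_of_lt_one h.b_pos.le h.b_lt).const_mul C).const_mul K
    simpa using this
  obtain ⟨n, ⟨⟨hKa, hKb⟩, hn1⟩, hpoly⟩ := (((((tendsto_order.mp t1).2 (1 / 16) (by norm_num)).and
    ((tendsto_order.mp t2).2 (1 / 16) (by norm_num))).and (eventually_ge_atTop 1)).and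
    (ev_poly (Real.log κ) (Real.log Ls) (Real.log a⁻¹) (Real.log b⁻¹) (Real.log (2 * C₂))
      (Real.log (5 * C) + Real.log (2 * C)) (Real.log (2 * C)) D hp)).exists
  obtain ⟨S, hR, hSa, hSb, hSLs, hSLu, hSK⟩ := exists_real hiso he hinj h K hK hang n hKa.le hKb.le
  have haN : 0 < C * a ^ n := by positivity
  have hbN : 0 < C * b ^ n := by positivity
  have haN' : C * a ^ n ≤ 1 / 16 := by nlinarith
  have hbN' : C * b ^ n ≤ 1 / 16 := by nlinarith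
  have hLsN : 1 ≤ C * Ls ^ n := by
    have := one_le_pow₀ hLs (n := n)
    nlinarith
  have hκN : 1 ≤ C₂ * κ ^ n := by
    have := one_le_pow₀ hκ (n := n)
    nlinarith
  set ms := ⌈4 * (C * Ls ^ n)⌉₊ with hms
  have hms1 : 4 * (C * Ls ^ n) ≤ ms := Nat.le_ceil _
  have hms2 : (ms : ℝ) ≤ 5 * C * Ls ^ n := by
    have := Nat.ceil_lt_add_one (by positivity : 0 ≤ 4 * (C * Ls ^ n))
    linarith
  have hms0 : (0 : ℝ) < ms := by linarith
  have hfu : ∀ x, Module.finrank ℝ (S.Vu x) = D := by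
    intro x
    rw [hR.Vu_eq, ← hrk x]
    exact ((Submodule.equivMapOfInjective (dm E₀ e x).toLinearMap (hinj x) (Eu x)).finrank_eq).symm
  have hdist : ∀ x, ∀ v ∈ S.Vu x, ∀ w ∈ S.Vu x,
      ‖S.D x v‖ * ‖w‖ ≤ C₂ * κ ^ n * (‖S.D x w‖ * ‖v‖) := by
    intro x v hv w hw
    rw [hR.Vu_eq] at hv hw
    obtain ⟨v', hv', rfl⟩ := hv
    obtain ⟨w', hw', rfl⟩ := hw
    change ‖S.D x (dm E₀ e x v')‖ * ‖dm E₀ e x w'‖ ≤
      C₂ * κ ^ n * (‖S.D x (dm E₀ e x w')‖ * ‖dm E₀ e x v'‖)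
    rw [hR.D_eq, hR.D_eq]
    exact hd n x v' hv' w' hw'
  have e1 : Real.log (2 * (C * a ^ n))⁻¹ = n * Real.log a⁻¹ - Real.log (2 * C) := by
    rw [← mul_assoc, Real.log_inv, Real.log_mul (by positivity) (by positivity), Real.log_pow,
      Real.log_inv]
    ring
  have e2 : Real.log (2 * (C * b ^ n))⁻¹ = n * Real.log b⁻¹ - Real.log (2 * C) := by
    rw [← mul_assoc, Real.log_inv, Real.log_mul (by positivity) (by positivity), Real.log_pow,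
      Real.log_inv]
    ring
  have e3 : Real.log (2 * (C₂ * κ ^ n)) = n * Real.log κ + Real.log (2 * C₂) := by
    rw [← mul_assoc, Real.log_mul (by positivity) (by positivity), Real.log_pow]
    ring
  have e4 : Real.log ms ≤ Real.log (5 * C) + n * Real.log Ls := by
    rw [← Real.log_pow, ← Real.log_mul (by positivity) (by positivity)]
    exact Real.log_le_log hms0 hms2
  have e5 : 0 ≤ n * Real.log κ + Real.log (2 * C₂) := by
    rw [← e3]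
    exact Real.log_nonneg (by linarith)
  have hgr : 2 * D * Real.log (2 * (C₂ * κ ^ n)) *
      (Real.log ms - Real.log (2 * (C * a ^ n))⁻¹) <
      Real.log (2 * (C * a ^ n))⁻¹ * Real.log (2 * (C * b ^ n))⁻¹ := by
    rw [e1, e2, e3]
    refine lt_of_le_of_lt ?_ hpoly
    apply mul_le_mul_of_nonneg_left _ (by positivity)
    linarith
  have H := lem.{u, v}
  have hlf : ∀ a s, WS S.g a s → Lf S.g a s := by
    exact absB H.h1 H.h2 H.h4 H.h6 H.h7 H.h8 H.h9 H.h10 H.h11 H.h12 H.h13 H.h14 S D ms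
      (2 * (C * a ^ n)) (2 * (C * b ^ n)) (C₂ * κ ^ n) (2 * (C₂ * κ ^ n)) hD hfu
      (by rw [hSa]; linarith) (by rw [hSb]; linarith) (by linarith) (by linarith) hκN
      (by linarith) hdist (by rw [hSLs]; exact hms1) hgr
  have : ProperSpace E₀ := FiniteDimensional.proper_real E₀
  have hX : ULC M := ulc_of_charted (X := M) (E := E₀)
  exact pgB h1 h2 h3 h7 h8 h9 h10 S hX D ms
      (2 * (C * a ^ n)) (2 * (C * b ^ n)) (C₂ * κ ^ n) (2 * (C₂ * κ ^ n)) hD hfu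
      (by rw [hSa]; linarith) (by rw [hSb]; linarith) (by linarith) (by linarith) hκN
      (by linarith) hdist (by rw [hSLs]; exact hms1) hgr hlf

end embedded

section manifold

variable {E : Type*} [NormedAddCommGroup E] [NormedSpace ℝ E] [FiniteDimensional ℝ E]
  {M : Type u} [TopologicalSpace M] [T2Space M] [CompactSpace M] [ConnectedSpace M]
  [ChartedSpace E M] [IsManifold 𝓘(ℝ, E) ∞ M]

/-- Subexponential distortion on the unstable bundle. -/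
theorem man_pg_sub (h1 : SG1.{u}) (h2 : SG2.{u}) (h3 : SG3.{u}) (h7 : SG7.{u, 0})
    (h8 : SG8.{u, 0}) (h9 : SG9.{u, 0}) (h10 : SG10) (f : Diffeomorph 𝓘(ℝ, E) 𝓘(ℝ, E) M M 1)
    (Es Eu : ∀ x : M, Submodule ℝ (TangentSpace 𝓘(ℝ, E) x)) (hA : IsAnosov f Es Eu)
    (N : TangentBundle 𝓘(ℝ, E) M → ℝ) (hN : IsTangentNorm N)
    (hrk : ∀ x, 2 ≤ Module.finrank ℝ (Eu x))
    (hd : ∀ κ : ℝ, 1 < κ → ∃ C : ℝ, DistortionOn f N Eu C κ) : PG M := by
  obtain ⟨D, hD⟩ := man_rank f Es Eu hA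
  obtain ⟨x₀⟩ : Nonempty M := inferInstance
  have hD2 : 2 ≤ D := by rw [← hD x₀]; exact hrk x₀
  obtain ⟨m, ee, hee, hemb, hinje⟩ :=
    exists_embedding_euclidean_of_compact (I := 𝓘(ℝ, E)) (M := M)
  let _ : MetricSpace M := hemb.isEmbedding.comapMetricSpace ee
  have hiso : ∀ x y : M, dist x y = ‖ee x - ee y‖ := fun x y => dist_eq_norm (ee x) (ee y)
  have he1 : ContMDiff 𝓘(ℝ, E) (𝓡 m) 1 ee := hee.of_le (by simp)
  obtain ⟨C, a, b, Ls, Lu, hE⟩ := eanosov_of_isAnosov ee he1 hinje f Es Eu hA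
  obtain ⟨R, hR, hRd⟩ := dist_amb hN ee he1 hinje
  have ha : 0 < Real.log a⁻¹ := by
    rw [Real.log_inv]
    linarith [Real.log_neg hE.a_pos hE.a_lt]
  have hb : 0 < Real.log b⁻¹ := by
    rw [Real.log_inv]
    linarith [Real.log_neg hE.b_pos hE.b_lt]
  set q := Real.log a⁻¹ with hq
  set w := Real.log b⁻¹ with hw
  set p := Real.log Ls with hpd
  have hden : 0 < 2 * (D : ℝ) * (|p - q| + 1) := by
    have : (0 : ℝ) < D := by
      have : (2 : ℝ) ≤ D := by exact_mod_cast hD2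
      linarith
    positivity
  set t := q * w / (2 * (D : ℝ) * (|p - q| + 1)) with ht
  have ht0 : 0 < t := by positivity
  obtain ⟨C₁, hC₁⟩ := hd (Real.exp t) (Real.one_lt_exp_iff.2 ht0)
  refine core_pg h1 h2 h3 h7 h8 h9 h10 hiso he1 hinje hE D hD2 hD (R * max 1 C₁) (Real.exp t) ?_
    (Real.one_lt_exp_iff.2 ht0).le (hRd f Eu C₁ (Real.exp t) (Real.exp_pos t).le hC₁) ?_
  · have : 1 ≤ max 1 C₁ := le_max_left _ _
    nlinarith
  · rw [Real.log_exp]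
    have h1 : 2 * (D : ℝ) * t * (p - q) ≤ 2 * (D : ℝ) * t * |p - q| :=
      mul_le_mul_of_nonneg_left (le_abs_self _) (by positivity)
    have h2 : t * (2 * (D : ℝ) * (|p - q| + 1)) = q * w := by
      rw [ht]
      exact div_mul_cancel₀ _ hden.ne'
    have h3 : 0 < 2 * (D : ℝ) * t := by
      have : (2 : ℝ) ≤ D := by exact_mod_cast hD2
      have : (0 : ℝ) < D := by linarith
      positivity
    nlinarith

/-- The quantitative form. -/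
theorem man_pg_quant (h1 : SG1.{u}) (h2 : SG2.{u}) (h3 : SG3.{u}) (h7 : SG7.{u, 0})
    (h8 : SG8.{u, 0}) (h9 : SG9.{u, 0}) (h10 : SG10) (f : Diffeomorph 𝓘(ℝ, E) 𝓘(ℝ, E) M M 1)
    (Es Eu : ∀ x : M, Submodule ℝ (TangentSpace 𝓘(ℝ, E) x))
    (N : TangentBundle 𝓘(ℝ, E) M → ℝ) (hN : IsTangentNorm N) (C μ₁ μ₂ l₁ l₂ C₁ κ : ℝ)
    (hf : AnosovRates f N Es Eu C μ₁ μ₂ l₁ l₂) (D : ℕ) (hD : 2 ≤ D)
    (hrk : ∀ x, Module.finrank ℝ (Eu x) = D) (hκ : 1 ≤ κ) (hd : DistortionOn f N Eu C₁ κ)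
    (hp : 2 * D * Real.log κ * (Real.log μ₂ - Real.log μ₁) <
      -Real.log μ₂ * Real.log l₁) : PG M := by
  obtain ⟨m, ee, hee, hemb, hinje⟩ :=
    exists_embedding_euclidean_of_compact (I := 𝓘(ℝ, E)) (M := M)
  let _ : MetricSpace M := hemb.isEmbedding.comapMetricSpace ee
  have hiso : ∀ x y : M, dist x y = ‖ee x - ee y‖ := fun x y => dist_eq_norm (ee x) (ee y)
  have he1 : ContMDiff 𝓘(ℝ, E) (𝓡 m) 1 ee := hee.of_le (by simp)
  obtain ⟨C', hE⟩ := eanosov_of_rates hN ee he1 hinje f.toHomeomorph f.contMDiff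
    f.symm.contMDiff Es Eu C μ₁ μ₂ l₁ l₂ hf
  obtain ⟨R, hR, hRd⟩ := dist_amb hN ee he1 hinje
  refine core_pg h1 h2 h3 h7 h8 h9 h10 hiso he1 hinje hE D hD hrk (R * max 1 C₁) κ ?_ hκ
    (hRd f Eu C₁ κ (by linarith) hd) ?_
  · have : 1 ≤ max 1 C₁ := le_max_left _ _
    nlinarith
  · rw [inv_inv, Real.log_inv, Real.log_inv]
    have : -Real.log μ₁ - -Real.log μ₂ = Real.log μ₂ - Real.log μ₁ := by ring
    rw [this]
    exact hp

end manifold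

end Pool.Agent.Q192.PG
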