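import Pool.Agent.Q192.PG.Stm

/-!
# Project PG, job SG1 (counting)
-/

set_option autoImplicit false

open Filter Topology Set Metric unitInterval
open scoped Pointwise

namespace Pool.Agent.Q192.PG

open Pool.Agent.H721R2 Pool.Agent.H779R2.An Pool.Agent.Q130.UQ Pool.Agent.H789R2.AN
  Pool.Agent.H789R2.GP Pool.Agent.TH304.K289 Pool.Agent.TH289.L Pool.Agent.Y330.H Pool.Agent.Y330.G
  Pool.Agent.Y330.J Pool.Agent.Q192.PI Pool.Agent.Q192.PI.B

theorem sG1 : SG1 := by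
  classical
  intro X _ _ g c hg hX A hA
  have hc := hg.c_pos
  obtain ⟨Q, col, hcol⟩ := exists_col X hc
  refine ⟨2 * A * Q, fun x S hS => ?_⟩
  obtain ⟨B, hB⟩ := hA x S hS
  refine ⟨(2 ^ Q) ^ (2 * B + 1), fun n => ?_⟩
  set l := A * Nat.log 2 (n + 1) + B with hl
  have hne : Nonempty X := ⟨x⟩
  have hnd : ∀ α ∈ S ^ n, ∃ y : X, ∃ (p : Path x y) (r : Path y x), LPath g.symm p ∧
      LPath g r ∧ α = (cl p).trans (cl r) ∧
      (∀ m ≥ l, dist (g.symm^[m] x) (g.symm^[m] y) ≤ c / 2) ∧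
      ∀ m ≥ l, dist (g^[m] y) (g^[m] x) ≤ c / 2 := hB n
  choose! y hy using hnd
  have hinj : Set.InjOn (fun α => fun m : Fin (l + l + 1) =>
      col (g^[(m : ℕ)] (g.symm^[l] (y α)))) (S ^ n) := by
    intro α hα β hβ hab
    have h1 : y α = y β := col_eq hg hcol
      (fun m hm => by
        obtain ⟨-, -, -, -, -, u1, -⟩ := hy α hα
        obtain ⟨-, -, -, -, -, u2, -⟩ := hy β hβ
        have := dist_triangle_left (g.symm^[m] (y α)) (g.symm^[m] (y β)) (g.symm^[m] x)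
        linarith [u1 m hm, u2 m hm])
      (fun m hm => by
        obtain ⟨-, -, -, -, -, -, u1⟩ := hy α hα
        obtain ⟨-, -, -, -, -, -, u2⟩ := hy β hβ
        have := dist_triangle_right (g^[m] (y α)) (g^[m] (y β)) (g^[m] x)
        linarith [u1 m hm, u2 m hm])
      (fun m hm => congrFun hab ⟨m, by omega⟩)
    obtain ⟨p, r, p1, r1, e1, -, -⟩ := hy α hα
    obtain ⟨p', r', p2, r2, e2, -, -⟩ := hy β hβ
    rw [e1, e2]
    clear e1 e2 hab hα hβ
    generalize y β = yb at *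
    subst h1
    rw [cl_eq (hom_unique hX p1 p2), cl_eq (hom_unique hX r1 r2)]
  have hcard : (S ^ n).ncard ≤ (Q + 1) ^ (l + l + 1) := by
    have h1 := Set.ncard_le_ncard_of_injOn _ (t := (Set.univ : Set (Fin (l + l + 1) → Fin (Q + 1))))
      (fun α _ => mem_univ _) hinj
    rwa [Set.ncard_univ, Nat.card_eq_fintype_card, Fintype.card_fun, Fintype.card_fin,
      Fintype.card_fin] at h1
  refine hcard.trans ?_
  have hQ2 : (Q + 1) ^ (l + l + 1) ≤ (2 ^ Q) ^ (l + l + 1) :=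
    Nat.pow_le_pow_left Nat.lt_two_pow_self _
  refine hQ2.trans ?_
  have hk : 2 ^ Nat.log 2 (n + 1) ≤ n + 1 := Nat.pow_log_le_self 2 (by omega)
  have e3 : l + l + 1 = 2 * B + 1 + Nat.log 2 (n + 1) * (2 * A) := by
    rw [hl]
    ring
  rw [e3, pow_add]
  refine Nat.mul_le_mul_left _ ?_
  calc (2 ^ Q) ^ (Nat.log 2 (n + 1) * (2 * A)) = (2 ^ Nat.log 2 (n + 1)) ^ (2 * A * Q) := by
        rw [← pow_mul, ← pow_mul]
        congr 1
        ring
    _ ≤ (n + 1) ^ (2 * A * Q) := Nat.pow_le_pow_left hk _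

end Pool.Agent.Q192.PG
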