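import Pool.Agent.Q192.PG.S6

/-!
# Project PG, job SG10: numerical lemma, small distortion case
-/

set_option autoImplicit false

open Filter Topology Set Metric

namespace Pool.Agent.Q192.PG

/-- the choice of the slope -/
lemma slope {a b c s : ℝ} (ha : 0 < a) (hb : 0 < b) (hc : 0 ≤ c) (h : c * (s - a) < a * b) :
    ∃ τ : ℝ, 0 ≤ τ ∧ s < a * (τ + 1) ∧ c * τ < b := by
  set τ₀ : ℝ := max (s / a - 1) 0 with hτ₀
  have h0 : 0 ≤ τ₀ := le_max_right _ _
  have h1 : s / a - 1 ≤ τ₀ := le_max_left _ _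
  have h2 : c * τ₀ < b := by
    rcases le_total (s / a - 1) 0 with h3 | h3
    · rw [hτ₀, max_eq_right h3, mul_zero]
      exact hb
    · rw [hτ₀, max_eq_left h3]
      have e : c * (s / a - 1) * a = c * (s - a) := by field_simp
      have : c * (s / a - 1) * a < b * a := by rw [e, mul_comm b a]; exact h
      exact lt_of_mul_lt_mul_right this ha.le
  have h4 : 0 < (b - c * τ₀) / (2 * (c + 1)) := div_pos (by linarith) (by linarith)
  refine ⟨τ₀ + (b - c * τ₀) / (2 * (c + 1)), by linarith, ?_, ?_⟩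
  · have h5 : s / a < τ₀ + (b - c * τ₀) / (2 * (c + 1)) + 1 := by linarith
    rw [div_lt_iff₀ ha] at h5
    linarith
  · have h6 : c * ((b - c * τ₀) / (2 * (c + 1))) ≤ (b - c * τ₀) / 2 := by
      have h7 : c * ((b - c * τ₀) / (2 * (c + 1))) = (b - c * τ₀) / 2 * (c / (c + 1)) := by
        field_simp
      rw [h7]
      have h8 : c / (c + 1) ≤ 1 := by
        rw [div_le_one (by linarith)]
        linarith
      calc (b - c * τ₀) / 2 * (c / (c + 1)) ≤ (b - c * τ₀) / 2 * 1 :=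
            mul_le_mul_of_nonneg_left h8 (by linarith)
        _ = _ := mul_one _
    rw [mul_add]
    linarith

theorem sG10 : SG10 := by
  intro α β K ms D hα hα1 hβ hβ1 hK hms h
  have hms' : (1 : ℝ) ≤ ms := by exact_mod_cast hms
  have hK0 : 0 < K := by linarith
  have ha : 0 < Real.log α⁻¹ := Real.log_pos ((one_lt_inv₀ hα).2 hα1)
  have hb : 0 < Real.log β⁻¹ := Real.log_pos ((one_lt_inv₀ hβ).2 hβ1)
  have hc : 0 ≤ 2 * D * Real.log K := mul_nonneg (by positivity) (Real.log_nonneg hK)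
  obtain ⟨τ, hτ, h1, h2⟩ := slope ha hb hc h
  have g1 : ms * α ^ (τ + 1) < 1 := by
    rw [← Real.log_neg_iff (by positivity), Real.log_mul (by positivity) (by positivity),
      Real.log_rpow hα]
    rw [Real.log_inv] at h1
    linarith
  have g2 : K ^ (2 * D * τ) * β < 1 := by
    rw [← Real.log_neg_iff (by positivity), Real.log_mul (by positivity) hβ.ne',
      Real.log_rpow hK0]
    rw [Real.log_inv] at h2
    linarith
  set θ : ℝ := max (ms * α ^ (τ + 1)) (K ^ (2 * D * τ) * β) with hθ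
  have hθ0 : 0 < θ := lt_max_of_lt_left (by positivity)
  have hθ1 : θ < 1 := max_lt g1 g2
  obtain ⟨A, hA⟩ := num_base hθ0 hθ1 hτ
  refine ⟨A, fun C => ?_⟩
  obtain ⟨B, hB⟩ := hA (|C| * K ^ (2 * D))
  refine ⟨B, fun n => ?_⟩
  obtain ⟨k, hk1, hk2⟩ := hB n
  rw [abs_of_nonneg (by positivity)] at hk2
  set T : ℕ := ⌈τ * k⌉₊ with hT
  have hm1 : τ * k ≤ T := Nat.le_ceil _
  have hm2 : (T : ℝ) ≤ τ * k + 1 :=
    (Nat.ceil_lt_add_one (mul_nonneg hτ (Nat.cast_nonneg k))).le
  have hK1 : 1 ≤ K ^ (2 * D) := one_le_pow₀ hK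
  refine ⟨k, T, hk1, ?_, ?_⟩
  · have e1 := pow_le_of_rpow (y := (ms : ℝ)) hα hα1 (by linarith) hm1
    have e2 : (ms * α ^ (τ + 1)) ^ k ≤ θ ^ k := pow_le_pow_left₀ (by positivity) (le_max_left _ _) k
    push_cast
    calc C * (n * (ms : ℝ) ^ k) * α ^ (T + k) = C * (n * ((ms : ℝ) ^ k * α ^ (k + T))) := by
          rw [add_comm T k]; ring
      _ ≤ |C| * (n * ((ms : ℝ) ^ k * α ^ (k + T))) :=
        mul_le_mul_of_nonneg_right (le_abs_self C) (by positivity)
      _ ≤ |C| * (n * θ ^ k) := by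
        refine mul_le_mul_of_nonneg_left ?_ (abs_nonneg C)
        exact mul_le_mul_of_nonneg_left (e1.trans e2) (Nat.cast_nonneg n)
      _ ≤ |C| * (n * θ ^ k) * K ^ (2 * D) := le_mul_of_one_le_right (by positivity) hK1
      _ = |C| * K ^ (2 * D) * n * θ ^ k := by ring
      _ ≤ 1 := hk2
  · have e1 : K ^ (2 * D * T) * β ^ k ≤ K ^ (2 * D) * (K ^ (2 * D * τ) * β) ^ k := by
      have e3 : K ^ (2 * D * T) ≤ K ^ (2 * D) * (K ^ (2 * D * τ)) ^ k := by
        rw [← Real.rpow_natCast K (2 * D * T), ← Real.rpow_natCast K (2 * D),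
          ← Real.rpow_natCast (K ^ (2 * D * τ)) k, ← Real.rpow_mul hK0.le, ← Real.rpow_add hK0]
        apply Real.rpow_le_rpow_of_exponent_le hK
        push_cast
        nlinarith [mul_le_mul_of_nonneg_left hm2 (show (0 : ℝ) ≤ 2 * D by positivity)]
      rw [mul_pow, ← mul_assoc]
      exact mul_le_mul_of_nonneg_right e3 (by positivity)
    have e2 : (K ^ (2 * D * τ) * β) ^ k ≤ θ ^ k :=
      pow_le_pow_left₀ (by positivity) (le_max_right _ _) k
    calc C * n * K ^ (2 * D * T) * β ^ k = C * (n * (K ^ (2 * D * T) * β ^ k)) := by ring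
      _ ≤ |C| * (n * (K ^ (2 * D * T) * β ^ k)) :=
        mul_le_mul_of_nonneg_right (le_abs_self C) (by positivity)
      _ ≤ |C| * (n * (K ^ (2 * D) * θ ^ k)) := by
        refine mul_le_mul_of_nonneg_left ?_ (abs_nonneg C)
        refine mul_le_mul_of_nonneg_left (e1.trans ?_) (Nat.cast_nonneg n)
        exact mul_le_mul_of_nonneg_left e2 (by positivity)
      _ = |C| * K ^ (2 * D) * n * θ ^ k := by ring
      _ ≤ 1 := hk2

end Pool.Agent.Q192.PG
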