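import Pool.Agent.Q192.PG.Stm

/-!
# Project PG, job SG3 (products of generators are words of linear length)
-/

set_option autoImplicit false

open Filter Topology Set Metric unitInterval
open scoped Pointwise

namespace Pool.Agent.Q192.PG

open Pool.Agent.H721R2 Pool.Agent.H779R2.An Pool.Agent.Q130.UQ Pool.Agent.H789R2.AN
  Pool.Agent.H789R2.GP Pool.Agent.TH304.K289 Pool.Agent.TH289.L Pool.Agent.Y330.H Pool.Agent.Y330.G
  Pool.Agent.Y330.J Pool.Agent.Q192.PI Pool.Agent.Q192.PI.B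

universe u

section

variable {X : Type u} [MetricSpace X] {g : X ≃ₜ X} {ρ δ : ℝ} {ms mu : ℕ}

/-- concatenation of words -/
theorem Wd.trans {n m : ℕ} {x y z : X} {α : Path.Homotopic.Quotient x y}
    {β : Path.Homotopic.Quotient y z} (hα : Wd g ρ δ ms mu n α) (hβ : Wd g ρ δ ms mu m β) :
    Wd g ρ δ ms mu (n + m) (α.trans β) := by
  induction hβ with
  | nil x => rwa [Path.Homotopic.Quotient.trans_refl]
  | snoc p q h1 h2 h3 h4 h5 ih =>
    rw [← Path.Homotopic.Quotient.trans_assoc, ← Path.Homotopic.Quotient.trans_assoc]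
    exact Wd.snoc p q (ih hα) h2 h3 h4 h5

theorem pieces_const {g : X ≃ₜ X} {δ : ℝ} (hδ : 0 ≤ δ) {m : ℕ} (hm : 1 ≤ m) (x : X) :
    Pieces g δ m (fun _ => x) := by
  refine ⟨fun i => if i = 0 then 0 else 1, ?_, ?_, ?_, ?_⟩
  · intro i j hij
    by_cases hi : i = 0
    · simp only [hi, if_true]
      exact unitInterval.nonneg'
    · have hj : j ≠ 0 := by omega
      simp only [hi, hj, if_false, le_refl]
  · exact if_pos rfl
  · exact if_neg (by omega)
  · intro i _ t t' _ _ _ _ k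
    rw [dist_self]
    exact hδ

theorem nice_const {g : X ≃ₜ X} {δ : ℝ} (hδ : 0 ≤ δ) {m : ℕ} (hm : 1 ≤ m) (x : X) :
    Nice g δ m 1 (fun _ => x) := by
  intro k
  exact pieces_const hδ (by rw [mul_one]; exact Nat.one_le_pow _ _ hm) _

theorem lpath_refl (g : X ≃ₜ X) (x : X) : LPath g (Path.refl x) := by
  intro ε hε
  refine ⟨0, fun m _ t => ?_⟩
  show dist (g^[m] x) (g^[m] x) ≤ ε
  rw [dist_self]
  exact hε.le

/-- padding -/
theorem Wd.pad (hρ : 0 < ρ) (hδ : 0 < δ) (hms : 1 ≤ ms) (hmu : 1 ≤ mu) {n : ℕ} {x y : X}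
    {α : Path.Homotopic.Quotient x y} (hα : Wd g ρ δ ms mu n α) (k : ℕ) :
    Wd g ρ δ ms mu (n + k) α := by
  induction k with
  | zero => exact hα
  | succ k ih =>
    have h := Wd.snoc (Path.refl y) (Path.refl y) ih (lpath_refl g.symm y)
      (nice_const hδ.le hmu y) (lpath_refl g y) (nice_const hρ.le hms y)
    have e : cl (Path.refl y) = Path.Homotopic.Quotient.refl y := rfl
    rw [e, Path.Homotopic.Quotient.trans_refl, Path.Homotopic.Quotient.trans_refl] at h
    exact h

end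

theorem sG3 : SG3 := by
  intro X _ g ρ δ ms mu hρ hδ hms hmu hall x S hS
  choose N hN using fun α : FundamentalGroup X x => hall x x α
  obtain ⟨L, hL⟩ := (hS.image N).bddAbove
  have hSL : ∀ α ∈ S, Wd g ρ δ ms mu L (x := x) (z := x) α := by
    intro α hα
    have h1 : N α ≤ L := hL (mem_image_of_mem _ hα)
    have h2 := (hN α).pad hρ hδ hms hmu (L - N α)
    rwa [Nat.add_sub_cancel' h1] at h2
  refine ⟨L, fun n => ?_⟩
  induction n with
  | zero =>
    intro α hα
    rw [pow_zero, Set.mem_one] at hα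
    rw [hα, FundamentalGroup.one_def, Nat.mul_zero]
    exact Wd.nil x
  | succ n ih =>
    intro α hα
    rw [pow_succ] at hα
    obtain ⟨β, hβ, γ, hγ, rfl⟩ := Set.mem_mul.1 hα
    rw [FundamentalGroup.mul_def, Nat.mul_succ, Nat.add_comm]
    exact (hSL γ hγ).trans (ih β hβ)

end Pool.Agent.Q192.PG
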