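import Pool.Agent.Q192.PG.Stm
import Pool.Agent.Q192.PG.S3

/-!
# Project PG, job SG2 (all classes are words)
-/

set_option autoImplicit false

open Filter Topology Set Metric unitInterval
open scoped Pointwise

namespace Pool.Agent.Q192.PG

open Pool.Agent.H721R2 Pool.Agent.H779R2.An Pool.Agent.Q130.UQ Pool.Agent.H789R2.AN
  Pool.Agent.H789R2.GP Pool.Agent.TH304.K289 Pool.Agent.TH289.L Pool.Agent.Y330.H Pool.Agent.Y330.G
  Pool.Agent.Y330.J Pool.Agent.Q192.PI Pool.Agent.Q192.PI.B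

universe u

section

variable {X : Type u} [MetricSpace X] [CompactSpace X] {g : X ≃ₜ X} {c : ℝ}

/-- nice paths between close points of a leaf -/
theorem nice_path (hg : LP g c) {ρ d : ℝ} {ms : ℕ}
    (h : ∀ (a : X) (υ : C(I, SM g)), (∀ t, SR g d a (υ t).val) →
      ∃ H : C(I × I, SM g), (∀ t, (H (0, t)).val = a) ∧ (∀ t, (H (1, t)).val = (υ t).val) ∧
        (∀ r t, (υ t).val = a → (H (r, t)).val = a) ∧
        ∀ t, Nice g ρ ms 1 (fun r => (H (r, t)).val)) {a b : X} (hab : SR g d a b) :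
    ∃ p : Path a b, LPath g p ∧ Nice g ρ ms 1 (fun t => p t) := by
  obtain ⟨H, h0, h1, -, h3⟩ := h a (ContinuousMap.const I (⟨b⟩ : SM g)) (fun _ => hab)
  let v : C(I, SM g) := ⟨fun r => H (r, 0), H.continuous.comp (by fun_prop)⟩
  let p : Path a b := ⟨⟨fun r => (H (r, 0)).val, SM.val_continuous.comp v.continuous⟩,
    h0 0, h1 0⟩
  exact ⟨p, lpath_of_sm hg v p (fun t => rfl), h3 0⟩

/-- small paths are words with one step -/
theorem wd_small (hg : LP g c) (hX : ULC X) {ρ δ : ℝ} {ms mu : ℕ} (hr : Rad g ρ ms)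
    (hr' : Rad g.symm δ mu) : ∃ η > 0, ∀ (x z : X) (p : Path x z),
    (∀ t, dist x (p t) < η) → Wd g ρ δ ms mu 1 (cl p) := by
  obtain ⟨d, hd, hrd⟩ := hr
  obtain ⟨d', hd', hrd'⟩ := hr'
  obtain ⟨δ₁, hδ₁, h1⟩ := hX.homo 1 one_pos
  obtain ⟨η, hη, h2⟩ := leaf_path hg hX (δ₁ / 3) (by positivity)
  obtain ⟨η', hη', h2'⟩ := leaf_path hg.symm hX (δ₁ / 3) (by positivity)
  obtain ⟨δ₂, hδ₂, h3⟩ := hg.lp (min (min η η') (min d d')) (by positivity)
  refine ⟨min (δ₁ / 3) δ₂, by positivity, fun x z p hp => ?_⟩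
  have hz := hp 1
  rw [p.target] at hz
  obtain ⟨w, a1, a2⟩ := h3 z x (by
    rw [dist_comm]
    exact lt_of_lt_of_le hz (min_le_right _ _))
  obtain ⟨υ, b1, b2, b3⟩ := h2' ⟨x⟩ ⟨w⟩ ((SM.dist_le _ _ hη'.le).2
    (a2.mono ((min_le_left _ _).trans (min_le_right _ _))))
  obtain ⟨τ, d1, d2, d3⟩ := h2 ⟨z⟩ ⟨w⟩ ((SM.dist_le _ _ hη.le).2
    (a1.mono ((min_le_left _ _).trans (min_le_left _ _))))
  let p₁ : Path x w := ⟨⟨fun t => (υ t).val, SM.val_continuous.comp υ.continuous⟩,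
    by simp [b1], by simp [b2]⟩
  let q₁ : Path z w := ⟨⟨fun t => (τ t).val, SM.val_continuous.comp τ.continuous⟩,
    by simp [d1], by simp [d2]⟩
  have hp₁ : LPath g.symm p₁ := lpath_of_sm hg.symm υ p₁ fun t => rfl
  have hq₁ : LPath g q₁ := lpath_of_sm hg τ q₁ fun t => rfl
  obtain ⟨p', hp', np'⟩ := nice_path hg.symm hrd'
    (a2.mono ((min_le_right _ _).trans (min_le_right _ _)) : SR g.symm d' x w)
  obtain ⟨q', hq', nq'⟩ := nice_path hg hrd
    ((a1.mono ((min_le_right _ _).trans (min_le_left _ _))).symm' : SR g d w z)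
  have key : cl p = (cl p₁).trans (cl q₁.symm) := by
    rw [← cl_trans]
    apply cl_eq
    have e1 : ∀ t, dist x (p₁ t) ≤ δ₁ / 3 := fun t => by
      have := ((SM.dist_le _ _ (by positivity)).1 (b3 t)).dist12
      exact this
    have e2 : ∀ t, dist z (q₁ t) ≤ δ₁ / 3 := fun t => by
      have := ((SM.dist_le _ _ (by positivity)).1 (d3 t)).dist12
      exact this
    have hz' : dist x z < δ₁ / 3 := lt_of_lt_of_le hz (min_le_left _ _)
    obtain ⟨H, c1, c2, c3, c4, -⟩ := h1 x p.toContinuousMap (p₁.trans q₁.symm).toContinuousMap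
      (by simp) (by simp)
      (fun t => by
        rw [mem_ball, dist_comm]
        exact lt_of_lt_of_le (hp t) ((min_le_left _ _).trans (by linarith)))
      (fun t => by
        rw [mem_ball, dist_comm]
        show dist x ((p₁.trans q₁.symm) t) < δ₁
        rw [Path.trans_apply]
        split_ifs with h
        · linarith [e1 ⟨2 * t, (unitInterval.mul_pos_mem_iff zero_lt_two).2 ⟨t.2.1, h⟩⟩]
        · have e3 := e2 (σ ⟨2 * (t : ℝ) - 1, unitInterval.two_mul_sub_one_mem_iff.2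
            ⟨(not_le.1 h).le, t.2.2⟩⟩)
          have := dist_triangle x z (q₁ (σ ⟨2 * (t : ℝ) - 1,
            unitInterval.two_mul_sub_one_mem_iff.2 ⟨(not_le.1 h).le, t.2.2⟩⟩))
          show dist x (q₁ (σ _)) < δ₁
          linarith)
    refine ⟨⟨⟨H, fun t => ?_, fun t => ?_⟩, fun s t ht => ?_⟩⟩
    · exact c1 t
    · exact c2 t
    · rcases ht with rfl | ht
      · exact c3 s
      · obtain rfl : t = 1 := ht
        exact c4 s
  rw [key, cl_eq (hom_unique hX hp₁ hp'), cl_eq (hom_unique hX hq₁.symm hq')]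
  have h := Wd.snoc (ms := ms) (mu := mu) p' q' (Wd.nil (g := g) (ρ := ρ) (δ := δ) x) hp' np' hq' nq'
  rw [Path.Homotopic.Quotient.refl_trans] at h
  exact h

end

theorem sG2 : SG2 := by
  intro X _ _ g c hg hX ρ δ ms mu _ _ hr hr' x z α
  obtain ⟨p, rfl⟩ := Path.Homotopic.Quotient.mk_surjective α
  obtain ⟨f, h0, h1⟩ := p
  subst h0
  subst h1
  obtain ⟨δ₀, hδ₀, hsm⟩ := wd_small hg hX hr hr'
  have hu : UniformContinuous f := CompactSpace.uniformContinuous_of_continuous f.continuous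
  rw [Metric.uniformContinuous_iff] at hu
  obtain ⟨δ', hδ', h2⟩ := hu δ₀ hδ₀
  have := contr_I
  have key : ∀ t : I, ∃ L, Wd g ρ δ ms mu L (cl ((lin 0 t).map f.continuous)) := by
    refine interval_induct
      (S := fun t => ∃ L, Wd g ρ δ ms mu L (cl ((lin 0 t).map f.continuous))) hδ' ?_ ?_
    · refine ⟨1, hsm _ _ _ fun s => ?_⟩
      show dist (f 0) (f (lin 0 0 s)) < δ₀
      refine h2 (lt_of_le_of_lt (lin_dist _ _ _) ?_)
      rw [dist_self]
      exact hδ'
    · intro t ht t'' htt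
      have e : cl ((lin 0 t'').map f.continuous) =
          (cl ((lin 0 t).map f.continuous)).trans (cl ((lin t t'').map f.continuous)) := by
        rw [← cl_trans, ← Path.map_trans]
        exact cl_eq ((SimplyConnectedSpace.paths_homotopic (lin 0 t'')
          ((lin 0 t).trans (lin t t''))).map f)
      rw [e]
      obtain ⟨L, hL⟩ := ht t le_rfl
      refine ⟨L + 1, hL.trans (hsm _ _ _ fun s => ?_)⟩
      show dist (f t) (f (lin t t'' s)) < δ₀
      exact h2 (lt_of_le_of_lt (lin_dist _ _ _) htt)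
  have h3 := key 1
  have e : (lin 0 1).map f.continuous = (⟨f, rfl, rfl⟩ : Path (f 0) (f 1)) := by
    ext s
    show f (lin 0 1 s) = f s
    congr 1
    apply Subtype.ext
    show (1 - (s : ℝ)) * ((0 : I) : ℝ) + s * ((1 : I) : ℝ) = s
    simp
  rw [e] at h3
  exact h3

end Pool.Agent.Q192.PG
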