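import Pool.Agent.Q192.PG.Stm

/-!
# Job PG-SG4 (project PG of helper192; written by helper299): many pushes, with sizes

Adapted from `sA2` and `sA3` of project PI (helper98).
-/

set_option autoImplicit false

open Filter Topology Set Metric unitInterval

namespace Pool.Agent.Q192.PG

open Pool.Agent.H721R2 Pool.Agent.H789R2.AN Pool.Agent.H789R2.GP Pool.Agent.Y330.H
open Pool.Agent.TH289.K Pool.Agent.Q192.PI

universe u

/-- one push, with the size of the transversal sides -/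
theorem push_one (X : Type u) [MetricSpace X] [CompactSpace X] (g : X ≃ₜ X)
    (εs α β δ r ρ : ℝ) (n N : ℕ) (hα : 0 ≤ α) (hα1 : α ≤ 1) (hβ : 0 ≤ β) (hβ1 : β ≤ 1)
    (hr : 0 < r) (hρ : 0 < ρ) (hε : ρ + 2 * r ≤ εs) (hcs : Cn g εs α) (hcu : Cn g.symm εs β)
    (hLR : LR g δ r) (hN : N * (α ^ n * ρ) ≤ δ) (p : C(I, SM g))
    (hp : Pieces g ρ N (fun t => (p t).val)) (v : C(I, SM g.symm))
    (hv0 : (v 0).val = g^[n] (p 0).val) (hv : ∀ t, SR g.symm δ (v 0).val (v t).val) :
    ∃ R : I → I → X, Rc g R ∧ (∀ s, R s 0 = g^[n] (p s).val) ∧ (∀ t, R 0 t = (v t).val) ∧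
      (∀ s t, SR g.symm r (R s 0) (R s t)) ∧
      ∃ p' : C(I, SM g), (∀ s, g^[n] (p' s).val = R s 1) ∧
        Pieces g (ρ + 2 * (β ^ n * r)) N (fun t => (p' t).val) := by
  have hrε : r ≤ εs := by linarith
  have hρε : ρ ≤ εs := by linarith
  obtain ⟨q, hq⟩ := pathS_iter n p
  -- the stable path is small at time n
  have h1 : ∀ s, SR g δ (q 0).val (q s).val := by
    intro s k
    rw [hq, hq, ← Function.iterate_add_apply, ← Function.iterate_add_apply]
    refine (pieces_con hα hρ.le hρε hcs hp (k + n) s).trans (le_trans ?_ hN)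
    refine mul_le_mul_of_nonneg_left ?_ (Nat.cast_nonneg _)
    refine mul_le_mul_of_nonneg_right ?_ hρ.le
    exact pow_le_pow_of_le_one hα hα1 (by omega)
  obtain ⟨R, hR, b1, b2, b3, b4⟩ := hLR q v (by rw [hq, hv0]) h1 hv
  obtain ⟨p', hp'⟩ := (hR.iter' n).pathS 1
  refine ⟨R, hR, fun s => by rw [b1, hq], b2, b4, p', fun s => by rw [hp', iterR], ?_⟩
  obtain ⟨θ, hm, e0, e1, hθ⟩ := hp
  refine ⟨θ, hm, e0, e1, fun i hi t t' c1 c2 c3 c4 => ?_⟩
  have hpt := hθ i hi t t' c1 c2 c3 c4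
  -- displacement between `p'` and `p`
  have h2 : ∀ s, ∀ k ≤ n, dist (g^[k] (p' s).val) (g^[k] (p s).val) ≤ β ^ (n - k) * r := by
    intro s k hk
    obtain ⟨d, rfl⟩ : ∃ d, n = k + d := ⟨n - k, by omega⟩
    have f1 : g^[k] (p' s).val = g.symm^[d] (R s 1) := by
      rw [hp', Function.iterate_add_apply, iterR]
    have f2 : g^[k] (p s).val = g.symm^[d] (R s 0) := by
      rw [b1, hq, Nat.add_comm k d, Function.iterate_add_apply, iterL]
    rw [f1, f2, dist_comm, Nat.add_sub_cancel_left]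
    have f3 := hcu _ _ ((b4 s 1).mono hrε) d
    have f4 : dist (R s 0) (R s 1) ≤ r := b4 s 1 0
    exact f3.trans (mul_le_mul_of_nonneg_left f4 (pow_nonneg hβ _))
  have h3 : ∀ k ≤ n, dist (g^[k] (p' t).val) (g^[k] (p' t').val) ≤ ρ + 2 * (β ^ (n - k) * r) := by
    intro k hk
    have f1 := h2 t k hk
    have f2 := h2 t' k hk
    have f3 := hpt k
    have f4 := dist_triangle (g^[k] (p' t).val) (g^[k] (p t).val) (g^[k] (p' t').val)
    have f5 := dist_triangle (g^[k] (p t).val) (g^[k] (p t').val) (g^[k] (p' t').val)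
    rw [dist_comm] at f2
    linarith
  have h4 : SR g εs (p' t).val (p' t').val := by
    intro k
    rcases le_total k n with hk | hk
    · have f1 := h3 k hk
      have f2 : β ^ (n - k) ≤ 1 := pow_le_one₀ hβ hβ1
      nlinarith
    · obtain ⟨d, rfl⟩ : ∃ d, k = d + n := ⟨k - n, by omega⟩
      have f1 : ∀ s, g^[d + n] (p' s).val = g^[d] (R s 1) := by
        intro s
        rw [hp', Function.iterate_add_apply, iterR]
      rw [f1, f1]
      have f2 := b3 t 1 d
      have f3 := b3 t' 1 d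
      have f4 := dist_triangle_left (g^[d] (R t 1)) (g^[d] (R t' 1)) (g^[d] (R 0 1))
      linarith
  intro k
  have f1 := hcs _ _ h4 k
  have f2 := h3 0 (Nat.zero_le _)
  simp only [Function.iterate_zero, id, Nat.sub_zero] at f2
  have f3 : α ^ k ≤ 1 := pow_le_one₀ hα hα1
  have f4 := mul_le_mul_of_nonneg_right f3 (dist_nonneg (x := (p' t).val) (y := (p' t').val))
  linarith

theorem sG4 : SG4.{u} := by
  intro X _ _ g c hg εs α β δ r ρ ρ₁ n N J hα hα1 hβ hβ1 hr hρ₁ hε hcs hcu hLR hN hJ p hp v hv0 hv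
  obtain ⟨θ, hm, e0, e1, hθ⟩ := hv
  have hpos : 0 ≤ β ^ n * r := by positivity
  have key : ∀ i ≤ J, ∃ (pi : C(I, SM g)), g^[n] (pi 0).val = (v (θ i)).val ∧
      Pieces g (ρ₁ + 2 * (i * (β ^ n * r))) N (fun t => (pi t).val) ∧
      ∀ s, ∃ Γ : C(I, Pr g), (Γ 0).y = g^[n] (p s).val ∧ (∀ t, (Γ t).x = (v (min t (θ i))).val) ∧
        (Γ 1).y = g^[n] (pi s).val ∧
        ∀ j < i, ∀ t t' : I, θ j ≤ t → t ≤ θ (j + 1) → θ j ≤ t' → t' ≤ θ (j + 1) →
          SR g.symm (2 * r) (Γ t).y (Γ t').y := by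
    intro i
    induction i with
    | zero =>
      intro _
      refine ⟨p, by rw [e0, hv0], ?_, fun s => ?_⟩
      · simpa using hp
      · have hws : WS g (v 0).val (g^[n] (p s).val) := by
          rw [hv0, WS.iter]
          obtain ⟨C, hC⟩ := path_contr hg p
          exact WS.of_SR fun m => hC m s
        let Γ : C(I, Pr g) := ⟨fun _ => ⟨(v 0).val, g^[n] (p s).val, hws⟩, continuous_const⟩
        refine ⟨Γ, rfl, fun t => ?_, rfl, fun j hj => absurd hj (Nat.not_lt_zero j)⟩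
        show (v 0).val = (v (min t (θ 0))).val
        rw [e0, min_eq_right unitInterval.nonneg']
    | succ i ih =>
      intro hi
      obtain ⟨pi, a1, a2, a3⟩ := ih (by omega)
      have hii : θ i ≤ θ (i + 1) := hm (Nat.le_succ i)
      let w : C(I, SM g.symm) := ⟨fun t => v (max (θ i) (min t (θ (i + 1)))),
        v.continuous.comp (by fun_prop)⟩
      have hwv : ∀ t, w t = v (max (θ i) (min t (θ (i + 1)))) := fun t => rfl
      have hw0 : w 0 = v (θ i) := by
        rw [hwv, min_eq_left unitInterval.nonneg', max_eq_left unitInterval.nonneg']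
      have hwb : ∀ t, t ≤ θ i → w t = v (θ i) := by
        intro t ht
        rw [hwv, min_eq_left (ht.trans hii), max_eq_left ht]
      have hwa : ∀ t, θ i ≤ t → w t = v (min t (θ (i + 1))) := by
        intro t ht
        rw [hwv, max_eq_right (le_min ht hii)]
      have hw1 : w 1 = v (θ (i + 1)) := by
        rw [hwa 1 unitInterval.le_one', min_eq_right unitInterval.le_one']
      have hiJ : ((i : ℝ) + 1) ≤ J := by exact_mod_cast hi
      have hi0 : 0 ≤ 2 * ((i : ℝ) * (β ^ n * r)) := by positivity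
      have hsmall : ρ₁ + 2 * ((i : ℝ) * (β ^ n * r)) ≤ 2 * ρ := by
        have := mul_le_mul_of_nonneg_right hiJ hpos
        nlinarith
      have hαρ : (N : ℝ) * (α ^ n * (ρ₁ + 2 * (i * (β ^ n * r)))) ≤ δ := by
        refine le_trans ?_ hN
        refine mul_le_mul_of_nonneg_left ?_ (Nat.cast_nonneg _)
        exact mul_le_mul_of_nonneg_left hsmall (pow_nonneg hα _)
      obtain ⟨R, hR, b1, b2, b5, p', b3, b4⟩ := push_one X g εs α β δ r
        (ρ₁ + 2 * (i * (β ^ n * r))) n N hα hα1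
        hβ hβ1 hr (by linarith) (by linarith) hcs hcu hLR hαρ pi a2 w (by rw [hw0, a1])
        (fun t => by
          rw [hw0]
          refine hθ i (by omega) (θ i) _ le_rfl hii (le_max_left _ _) (max_le hii (min_le_right _ _)))
      refine ⟨p', ?_, ?_, fun s => ?_⟩
      · rw [b3, b2, hw1]
      · have e : ρ₁ + 2 * (((i + 1 : ℕ) : ℝ) * (β ^ n * r)) =
            ρ₁ + 2 * (i * (β ^ n * r)) + 2 * (β ^ n * r) := by
          push_cast
          ring
        rw [e]
        exact b4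
      · obtain ⟨Γ, c1, c2, c3, c4⟩ := a3 s
        obtain ⟨Γ', d1, d2⟩ := hR.strip 0 s
        obtain ⟨Γ₂, f1, f2⟩ := strip_glue hg Γ Γ' (θ i)
          (fun t ht => by rw [c2, c2, min_eq_right ht, min_self])
          (fun t ht => by rw [d1, d1, b2, b2, hwb t ht, hwb _ le_rfl])
          (by rw [c2, d1, b2, hwb _ le_rfl, min_self])
          (by rw [c3, d2, b1])
        refine ⟨Γ₂, ?_, fun t => ?_, ?_, fun j hj t t' k1 k2 k3 k4 => ?_⟩
        · rw [f1 0 unitInterval.nonneg', c1]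
        · rcases le_total t (θ i) with ht | ht
          · rw [f1 t ht, c2, min_eq_left ht, min_eq_left (ht.trans hii)]
          · rw [f2 t ht, d1, b2, hwa t ht]
        · rw [f2 1 unitInterval.le_one', d2, b3]
        · rcases Nat.lt_succ_iff_lt_or_eq.1 hj with hj' | rfl
          · have hle : θ (j + 1) ≤ θ i := hm (by omega)
            rw [f1 t (k2.trans hle), f1 t' (k4.trans hle)]
            exact c4 j hj' t t' k1 k2 k3 k4
          · rw [f2 t k1, f2 t' k3, d2, d2]
            intro k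
            have g1 := b5 s t k
            have g2 := b5 s t' k
            have g3 := dist_triangle_left (g.symm^[k] (R s t)) (g.symm^[k] (R s t'))
              (g.symm^[k] (R s 0))
            linarith
  obtain ⟨pJ, -, a2, a3⟩ := key J le_rfl
  obtain ⟨q, hq⟩ := pathS_iter n p
  obtain ⟨c₁, hc₁, hs⟩ := exists_sl hg
  obtain ⟨R, hR, b1, b2⟩ := rc_of_strips hg hc₁ hs q v (by rw [hq, hv0]) (fun s => by
    obtain ⟨Γ, c1, c2, -⟩ := a3 s
    refine ⟨Γ, by rw [c1, hq], fun t => ?_⟩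
    rw [c2, e1, min_eq_left unitInterval.le_one'])
  have huni : ∀ s, ∀ Γ : C(I, Pr g), (Γ 0).y = g^[n] (p s).val →
      (∀ t, (Γ t).x = (v (min t (θ J))).val) → ∀ t, R s t = (Γ t).y := by
    intro s Γ c1 c2 t
    obtain ⟨Γ', d1, d2⟩ := hR.strip 0 s
    have h1 := strip_unique hg Γ' Γ (fun t => by
      rw [d1, b2, c2, e1, min_eq_left unitInterval.le_one']) (t₀ := 0) (by rw [d2, b1, hq, c1]) t
    rw [← d2, h1]
  refine ⟨R, pJ, hR, fun s => by rw [b1, hq], b2, fun s => ?_, a2, ?_⟩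
  · obtain ⟨Γ, c1, c2, c3, -⟩ := a3 s
    rw [huni s Γ c1 c2 1, c3]
  · obtain ⟨Γ, c1, c2, c3, c4⟩ := a3 1
    refine ⟨θ, hm, e0, e1, fun i hi t t' k1 k2 k3 k4 => ?_⟩
    show SR g.symm (2 * r) (R 1 t) (R 1 t')
    rw [huni 1 Γ c1 c2 t, huni 1 Γ c1 c2 t']
    exact c4 i hi t t' k1 k2 k3 k4

end Pool.Agent.Q192.PG
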