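import Pool.Agent.Q192.PG.Stm
import Pool.Agent.Q192.PI.A2
import Pool.Agent.Y330.H.B7

/-!
# Job PG-SG5 (project PG of helper192; written by helper299): words have small levels, pinched case
-/

set_option autoImplicit false

open Filter Topology Set Metric unitInterval

namespace Pool.Agent.Q192.PG

open Pool.Agent.H721R2 Pool.Agent.H789R2.AN Pool.Agent.H789R2.GP Pool.Agent.TH304.K289
  Pool.Agent.TH289.L Pool.Agent.Y330.H Pool.Agent.Y330.G Pool.Agent.Y330.J Pool.Agent.Q192.PI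

universe u

section pieces

variable {X : Type u} [MetricSpace X] {g : X ≃ₜ X}

theorem pc_mono {δ δ' : ℝ} {m : ℕ} {p : I → X} (h : Pieces g δ m p) (hδ : δ ≤ δ') :
    Pieces g δ' m p := by
  obtain ⟨θ, hm, e0, e1, hθ⟩ := h
  exact ⟨θ, hm, e0, e1, fun i hi t t' h1 h2 h3 h4 => (hθ i hi t t' h1 h2 h3 h4).mono hδ⟩

theorem pc_symm {δ : ℝ} {m : ℕ} {p : I → X} (h : Pieces g δ m p) :
    Pieces g δ m (fun t => p (unitInterval.symm t)) := by
  obtain ⟨θ, hm, e0, e1, hθ⟩ := h
  refine ⟨fun i => unitInterval.symm (θ (m - i)), ?_, ?_, ?_, ?_⟩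
  · intro i j hij
    show unitInterval.symm (θ (m - i)) ≤ unitInterval.symm (θ (m - j))
    have h1 : θ (m - j) ≤ θ (m - i) := hm (by omega)
    have h2 : ((θ (m - j) : I) : ℝ) ≤ θ (m - i) := h1
    show 1 - ((θ (m - i) : I) : ℝ) ≤ 1 - ((θ (m - j) : I) : ℝ)
    linarith
  · show unitInterval.symm (θ (m - 0)) = 0
    rw [Nat.sub_zero, e1, unitInterval.symm_one]
  · show unitInterval.symm (θ (m - m)) = 1
    rw [Nat.sub_self, e0, unitInterval.symm_zero]
  · intro i hi t t' h1 h2 h3 h4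
    have key : ∀ t : I, unitInterval.symm (θ (m - i)) ≤ t →
        t ≤ unitInterval.symm (θ (m - (i + 1))) →
        θ (m - (i + 1)) ≤ unitInterval.symm t ∧ unitInterval.symm t ≤ θ (m - (i + 1) + 1) := by
      intro t k1 k2
      have e : m - (i + 1) + 1 = m - i := by omega
      rw [e]
      have k1' : 1 - ((θ (m - i) : I) : ℝ) ≤ t := k1
      have k2' : (t : ℝ) ≤ 1 - ((θ (m - (i + 1)) : I) : ℝ) := k2
      constructor
      · show ((θ (m - (i + 1)) : I) : ℝ) ≤ 1 - (t : ℝ)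
        linarith
      · show 1 - (t : ℝ) ≤ ((θ (m - i) : I) : ℝ)
        linarith
    obtain ⟨a1, a2⟩ := key t h1 h2
    obtain ⟨a3, a4⟩ := key t' h3 h4
    exact hθ (m - (i + 1)) (by omega) _ _ a1 a2 a3 a4

/-- the first half -/
noncomputable def hA (t : I) : I := ⟨(t : ℝ) / 2, by
  constructor
  · have := t.2.1
    linarith
  · have := t.2.2
    linarith⟩

/-- the second half -/
noncomputable def hB (t : I) : I := ⟨((t : ℝ) + 1) / 2, by
  constructor
  · have := t.2.1
    linarith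
  · have := t.2.2
    linarith⟩

theorem trans_hA {x y z : X} (p : Path x y) (q : Path y z) (t : I) : (p.trans q) (hA t) = p t := by
  rw [Path.trans_apply]
  have h : ((hA t : I) : ℝ) ≤ 1 / 2 := by
    show (t : ℝ) / 2 ≤ 1 / 2
    have := t.2.2
    linarith
  rw [dif_pos h]
  congr 1
  apply Subtype.ext
  show 2 * ((t : ℝ) / 2) = t
  ring

theorem trans_hB {x y z : X} (p : Path x y) (q : Path y z) (t : I) : (p.trans q) (hB t) = q t := by
  rw [Path.trans_apply]
  by_cases h : ((hB t : I) : ℝ) ≤ 1 / 2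
  · rw [dif_pos h]
    have h1 : ((t : ℝ) + 1) / 2 ≤ 1 / 2 := h
    have h2 := t.2.1
    have h3 : (t : ℝ) = 0 := by linarith
    have h4 : t = 0 := Subtype.ext h3
    subst h4
    rw [q.source]
    convert p.target using 2
    apply Subtype.ext
    show 2 * ((((0 : I) : ℝ) + 1) / 2) = 1
    norm_num
  · rw [dif_neg h]
    congr 1
    apply Subtype.ext
    show 2 * (((t : ℝ) + 1) / 2) - 1 = t
    ring

theorem pc_trans {δ : ℝ} {m m' : ℕ} {x y z : X} {p : Path x y} {q : Path y z} {F : X → X}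
    (h : Pieces g δ m (fun t => F (p t))) (h' : Pieces g δ m' (fun t => F (q t))) :
    Pieces g δ (m + m') (fun t => F ((p.trans q) t)) := by
  obtain ⟨θ, hm, e0, e1, hθ⟩ := h
  obtain ⟨θ', hm', e0', e1', hθ'⟩ := h'
  have hle : ∀ i ≤ m, ∀ j, hA (θ i) ≤ hB (θ' j) := by
    intro i _ j
    show ((θ i : I) : ℝ) / 2 ≤ (((θ' j : I) : ℝ) + 1) / 2
    have h1 := (θ i).2.2
    have h2 := (θ' j).2.1
    linarith
  have hAB : ∀ {s t : I}, s ≤ t → hA s ≤ hA t := by
    intro s t hst
    show (s : ℝ) / 2 ≤ (t : ℝ) / 2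
    have : (s : ℝ) ≤ t := hst
    linarith
  have hBB : ∀ {s t : I}, s ≤ t → hB s ≤ hB t := by
    intro s t hst
    show ((s : ℝ) + 1) / 2 ≤ ((t : ℝ) + 1) / 2
    have : (s : ℝ) ≤ t := hst
    linarith
  have hjoin : hA 1 = hB 0 := by
    apply Subtype.ext
    show ((1 : I) : ℝ) / 2 = (((0 : I) : ℝ) + 1) / 2
    norm_num
  refine ⟨fun i => if i ≤ m then hA (θ i) else hB (θ' (i - m)), ?_, ?_, ?_, ?_⟩
  · intro i j hij
    show (if i ≤ m then hA (θ i) else hB (θ' (i - m))) ≤ (if j ≤ m then hA (θ j) else hB (θ' (j - m)))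
    split_ifs with c1 c2 c2
    · exact hAB (hm hij)
    · exact hle i c1 _
    · omega
    · exact hBB (hm' (by omega))
  · show (if 0 ≤ m then hA (θ 0) else hB (θ' (0 - m))) = 0
    rw [if_pos (Nat.zero_le _), e0]
    apply Subtype.ext
    show ((0 : I) : ℝ) / 2 = 0
    norm_num
  · show (if m + m' ≤ m then hA (θ (m + m')) else hB (θ' (m + m' - m))) = 1
    have hm0 : m' ≠ 0 := by
      rintro rfl
      rw [e0'] at e1'
      exact zero_ne_one e1'
    rw [if_neg (by omega), Nat.add_sub_cancel_left, e1']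
    apply Subtype.ext
    show (((1 : I) : ℝ) + 1) / 2 = 1
    norm_num
  · intro i hi t t' h1 h2 h3 h4
    simp only at h1 h2 h3 h4
    by_cases c : i < m
    · rw [if_pos (by omega : i ≤ m)] at h1 h3
      rw [if_pos (by omega : i + 1 ≤ m)] at h2 h4
      have key : ∀ t : I, hA (θ i) ≤ t → t ≤ hA (θ (i + 1)) → ∃ u, θ i ≤ u ∧ u ≤ θ (i + 1) ∧
          t = hA u := by
        intro t k1 k2
        have k1' : ((θ i : I) : ℝ) / 2 ≤ t := k1
        have k2' : (t : ℝ) ≤ ((θ (i + 1) : I) : ℝ) / 2 := k2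
        have k3 := (θ i).2.1
        have k4 := (θ (i + 1)).2.2
        refine ⟨⟨2 * (t : ℝ), by constructor <;> linarith⟩, ?_, ?_, ?_⟩
        · show ((θ i : I) : ℝ) ≤ 2 * (t : ℝ)
          linarith
        · show 2 * (t : ℝ) ≤ ((θ (i + 1) : I) : ℝ)
          linarith
        · apply Subtype.ext
          show (t : ℝ) = 2 * (t : ℝ) / 2
          ring
      obtain ⟨u, a1, a2, rfl⟩ := key t h1 h2
      obtain ⟨u', a3, a4, rfl⟩ := key t' h3 h4
      show SR g δ (F ((p.trans q) (hA u))) (F ((p.trans q) (hA u')))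
      rw [trans_hA, trans_hA]
      exact hθ i c u u' a1 a2 a3 a4
    · have hlow : ∀ t : I, (if i ≤ m then hA (θ i) else hB (θ' (i - m))) ≤ t →
          hB (θ' (i - m)) ≤ t := by
        intro t ht
        split_ifs at ht with c2
        · have : i = m := by omega
          subst this
          rw [e1, hjoin] at ht
          rwa [Nat.sub_self, e0']
        · exact ht
      rw [if_neg (by omega : ¬ i + 1 ≤ m)] at h2 h4
      have e : i + 1 - m = i - m + 1 := by omega
      rw [e] at h2 h4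
      have key : ∀ t : I, hB (θ' (i - m)) ≤ t → t ≤ hB (θ' (i - m + 1)) → ∃ u, θ' (i - m) ≤ u ∧
          u ≤ θ' (i - m + 1) ∧ t = hB u := by
        intro t k1 k2
        have k1' : (((θ' (i - m) : I) : ℝ) + 1) / 2 ≤ t := k1
        have k2' : (t : ℝ) ≤ (((θ' (i - m + 1) : I) : ℝ) + 1) / 2 := k2
        have k3 := (θ' (i - m)).2.1
        have k4 := (θ' (i - m + 1)).2.2
        refine ⟨⟨2 * (t : ℝ) - 1, by constructor <;> linarith⟩, ?_, ?_, ?_⟩
        · show ((θ' (i - m) : I) : ℝ) ≤ 2 * (t : ℝ) - 1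
          linarith
        · show 2 * (t : ℝ) - 1 ≤ ((θ' (i - m + 1) : I) : ℝ)
          linarith
        · apply Subtype.ext
          show (t : ℝ) = (2 * (t : ℝ) - 1 + 1) / 2
          ring
      obtain ⟨u, a1, a2, rfl⟩ := key t (hlow t h1) h2
      obtain ⟨u', a3, a4, rfl⟩ := key t' (hlow t' h3) h4
      show SR g δ (F ((p.trans q) (hB u))) (F ((p.trans q) (hB u')))
      rw [trans_hB, trans_hB]
      exact hθ' (i - m) (by omega) u u' a1 a2 a3 a4

/-- the sizes of the pieces of an unstable path -/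
theorem size_up [CompactSpace X] {δ r : ℝ} (hLR : LR g δ r) {J : ℕ} (v : C(I, SM g.symm))
    (h : Pieces g.symm δ J (fun t => (v t).val)) (hδ : 0 ≤ δ) :
    Pieces g.symm (2 * r) J (fun t => (v t).val) := by
  obtain ⟨θ, hm, e0, e1, hθ⟩ := h
  refine ⟨θ, hm, e0, e1, fun i hi t t' h1 h2 h3 h4 => ?_⟩
  have hii : θ i ≤ θ (i + 1) := hm (Nat.le_succ i)
  let w : C(I, SM g.symm) := ⟨fun t => v (max (θ i) (min t (θ (i + 1)))),
    v.continuous.comp (by fun_prop)⟩
  have hwv : ∀ t, w t = v (max (θ i) (min t (θ (i + 1)))) := fun t => rfl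
  have hw0 : w 0 = v (θ i) := by
    rw [hwv, min_eq_left unitInterval.nonneg', max_eq_left unitInterval.nonneg']
  have hwt : ∀ t, θ i ≤ t → t ≤ θ (i + 1) → w t = v t := by
    intro t k1 k2
    rw [hwv, min_eq_left k2, max_eq_right k1]
  let τ : C(I, SM g) := ⟨fun _ => ⟨(v (θ i)).val⟩, continuous_const⟩
  obtain ⟨R, hR, b1, b2, b3, b4⟩ := hLR τ w (by rw [hw0]; rfl)
    (fun s k => by
      show dist (g^[k] (v (θ i)).val) (g^[k] (v (θ i)).val) ≤ δ
      rw [dist_self]
      exact hδ)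
    (fun t => by
      rw [hw0]
      exact hθ i hi (θ i) _ le_rfl hii (le_max_left _ _) (max_le hii (min_le_right _ _)))
  have key : ∀ t, θ i ≤ t → t ≤ θ (i + 1) → SR g.symm r (v (θ i)).val (v t).val := by
    intro t k1 k2
    have := b4 0 t
    rw [b2, b2, hw0, hwt t k1 k2] at this
    exact this
  intro k
  have g1 := key t h1 h2 k
  have g2 := key t' h3 h4 k
  have g3 := dist_triangle_left (g.symm^[k] (v t).val) (g.symm^[k] (v t').val)
    (g.symm^[k] (v (θ i)).val)
  linarith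

end pieces

/-- preimages of stable paths -/
theorem path_pull {X : Type u} [MetricSpace X] [CompactSpace X] {g : X ≃ₜ X} (n : ℕ)
    (v : C(I, SM g)) : ∃ w : C(I, SM g), ∀ t, (w t).val = g.symm^[n] (v t).val :=
  path_push (g := g.symm) n v

/-- the state after `j` steps -/
def Sta {X : Type u} [MetricSpace X] (g : X ≃ₜ X) (β r ρ : ℝ) (ms mu k m j : ℕ) {x z : X}
    (a : Path.Homotopic.Quotient x z) : Prop :=
  ∃ (y : X) (P : Path x y) (Q : Path y z), LPath g.symm P ∧ LPath g Q ∧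
    a = (cl P).trans (cl Q) ∧
    Pieces g (ρ + 2 * (((j * mu ^ m : ℕ) : ℝ) * (β ^ (k + m) * r))) (j * ms ^ k)
      (fun t => g.symm^[k] (Q t)) ∧
    Pieces g.symm (2 * r) (j * mu ^ m) (fun t => g^[m] (P t))

theorem sta_step (h4 : SG4.{u}) {X : Type u} [MetricSpace X] [CompactSpace X] (g : X ≃ₜ X) (c : ℝ)
    (hg : LP g c) (εs α β δ r ρ : ℝ) (ms mu : ℕ) (hα : 0 ≤ α) (hα1 : α ≤ 1) (hβ : 0 ≤ β)
    (hβ1 : β ≤ 1) (hr : 0 < r) (hρ : 0 < ρ) (hδ : 0 < δ) (hε : 2 * ρ + 2 * r ≤ εs)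
    (hcs : Cn g εs α) (hcu : Cn g.symm εs β) (hLR : LR g δ r) (L k m : ℕ)
    (hL1 : ((L * ms ^ k : ℕ) : ℝ) * (α ^ (k + m) * (2 * ρ)) ≤ δ)
    (hL2 : 2 * (((L * mu ^ m : ℕ) : ℝ) * (β ^ (k + m) * r)) ≤ ρ) {j : ℕ} (hj : j + 1 ≤ L)
    {x y w z : X} {a : Path.Homotopic.Quotient x y} (ha : Sta g β r ρ ms mu k m j a)
    (p : Path y w) (q : Path w z) (hp : LPath g.symm p) (hp' : Nice g.symm δ mu 1 (fun t => p t))
    (hq : LPath g q) (hq' : Nice g ρ ms 1 (fun t => q t)) :
    Sta g β r ρ ms mu k m (j + 1) ((a.trans (cl p)).trans (cl q)) := by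
  obtain ⟨b, P, Q, hP, hQ, rfl, hQp, hPp⟩ := ha
  have hpos : 0 ≤ β ^ (k + m) * r := by positivity
  -- the stable path
  obtain ⟨τ, hτ⟩ := hQ.symm.sm
  obtain ⟨ps, hps⟩ := path_pull k τ
  have hps' : ∀ t, (ps t).val = g.symm^[k] (Q.symm t) := fun t => by rw [hps, hτ]
  -- the unstable path
  obtain ⟨υ, hυ⟩ := hp.sm
  obtain ⟨v, hv⟩ := path_push (g := g) m υ
  have hv' : ∀ t, (v t).val = g^[m] (p t) := fun t => by rw [hv, hυ]
  have hps_p : Pieces g (ρ + 2 * (((j * mu ^ m : ℕ) : ℝ) * (β ^ (k + m) * r))) (j * ms ^ k)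
      (fun t => (ps t).val) := by
    have h1 := pc_symm hQp
    have e : (fun t => (ps t).val) = fun t => g.symm^[k] (Q (unitInterval.symm t)) := by
      funext t
      rw [hps']
      rfl
    rw [e]
    exact h1
  have hv_p : Pieces g.symm δ (mu ^ m) (fun t => (v t).val) := by
    have h1 := hp' m
    rw [mul_one] at h1
    have e : (fun t => (v t).val) = fun t => g.symm.symm^[m] (p t) := by
      funext t
      rw [hv']
      rfl
    rw [e]
    exact h1
  have hj1 : ((j : ℝ) + 1) ≤ L := by exact_mod_cast hj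
  have hmu : (0 : ℝ) ≤ (mu : ℝ) ^ m * (β ^ (k + m) * r) := by positivity
  have hsz : ρ + 2 * (((j * mu ^ m : ℕ) : ℝ) * (β ^ (k + m) * r)) +
      2 * (((mu ^ m : ℕ) : ℝ) * (β ^ (k + m) * r)) ≤ 2 * ρ := by
    push_cast at hL2 ⊢
    have := mul_le_mul_of_nonneg_right hj1 hmu
    nlinarith
  have hN : ((j * ms ^ k : ℕ) : ℝ) * (α ^ (k + m) * (2 * ρ)) ≤ δ := by
    refine le_trans ?_ hL1
    refine mul_le_mul_of_nonneg_right ?_ (by positivity)
    have : j * ms ^ k ≤ L * ms ^ k := Nat.mul_le_mul_right _ (by omega)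
    exact_mod_cast this
  obtain ⟨R, p', hR, b1, b2, b3, b4, b5⟩ := h4 X g c hg εs α β δ r ρ
    (ρ + 2 * (((j * mu ^ m : ℕ) : ℝ) * (β ^ (k + m) * r))) (k + m) (j * ms ^ k) (mu ^ m)
    hα hα1 hβ hβ1 hr (by positivity) hε hcs hcu hLR hN hsz ps hps_p v
    (by
      rw [hv', hps', Path.source, Path.source, Nat.add_comm k m, Function.iterate_add_apply, iterR])
    hv_p
  have hR' := hR.iter' m
  have s1 : ∀ s, g.symm^[m] (R s 0) = Q.symm s := by
    intro s
    rw [b1, hps', Nat.add_comm k m, Function.iterate_add_apply, iterR, iterL]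
  have s2 : ∀ t, g.symm^[m] (R 0 t) = p t := by
    intro t
    rw [b2, hv', iterL]
  obtain ⟨rr, hrr, hrr'⟩ := Rc.right (y := g.symm^[m] (R 1 1)) hR' (x := b)
    (by show g.symm^[m] (R 1 0) = b; rw [s1]; simp) rfl
  obtain ⟨tt, htt, htt'⟩ := Rc.top (y := g.symm^[m] (R 1 1)) hR' (x := w)
    (by show g.symm^[m] (R 0 1) = w; rw [s2]; simp) rfl
  have hsw := swap_cl (R := fun s t => g.symm^[m] (R s t)) hR'.cont (α := Q.symm) (β := rr) (β' := p) (α' := tt) s1
    (fun t => (hrr' t).symm) s2 (fun s => (htt' s).symm)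
  rw [Path.symm_symm] at hsw
  refine ⟨g.symm^[m] (R 1 1), P.trans rr, tt.symm.trans q, hP.trans hrr, htt.symm.trans hq, ?_, ?_, ?_⟩
  · rw [cl_trans, cl_trans, Path.Homotopic.Quotient.trans_assoc,
      Path.Homotopic.Quotient.trans_assoc, Path.Homotopic.Quotient.trans_assoc,
      ← Path.Homotopic.Quotient.trans_assoc (cl Q), hsw, Path.Homotopic.Quotient.trans_assoc]
  · have e1 : (j + 1) * ms ^ k = j * ms ^ k + ms ^ k := by ring
    rw [e1]
    have e2 : ρ + 2 * ((((j + 1) * mu ^ m : ℕ) : ℝ) * (β ^ (k + m) * r)) =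
        ρ + 2 * (((j * mu ^ m : ℕ) : ℝ) * (β ^ (k + m) * r)) +
          2 * (((mu ^ m : ℕ) : ℝ) * (β ^ (k + m) * r)) := by
      push_cast
      ring
    rw [e2]
    refine pc_trans (F := g.symm^[k]) ?_ ?_
    · have h1 := pc_symm b4
      have e3 : (fun t => g.symm^[k] (tt.symm t)) = fun t => (p' (unitInterval.symm t)).val := by
        funext t
        have h2 : tt.symm t = g.symm^[m] (R (unitInterval.symm t) 1) := htt' _
        rw [h2, ← b3, ← Function.iterate_add_apply, iterL]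
      rw [e3]
      exact h1
    · have h1 := hq' k
      rw [mul_one] at h1
      refine pc_mono h1 ?_
      have : (0 : ℝ) ≤ ((j * mu ^ m : ℕ) : ℝ) * (β ^ (k + m) * r) := by positivity
      have : (0 : ℝ) ≤ ((mu ^ m : ℕ) : ℝ) * (β ^ (k + m) * r) := by positivity
      linarith
  · have e1 : (j + 1) * mu ^ m = j * mu ^ m + mu ^ m := by ring
    rw [e1]
    refine pc_trans (F := g^[m]) hPp ?_
    have e3 : (fun t => g^[m] (rr t)) = fun t => R 1 t := by
      funext t
      rw [hrr' t, iterR]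
    rw [e3]
    exact b5

theorem sG5 (h4 : SG4.{u}) : SG5.{u} := by
  intro X _ _ g c hg εs α β δ r ρ ms mu hα hα1 hβ hβ1 hr hρ hδ hε hδc hρc hcs hcu hLR L k m hL1 hL2
    x z a ha
  have hc := hg.c_pos
  have key : ∀ (j : ℕ) (x z : X) (a : Path.Homotopic.Quotient x z), Wd g ρ δ ms mu j a → 1 ≤ j →
      j ≤ L → Sta g β r ρ ms mu k m j a := by
    intro j x z a ha
    induction ha with
    | nil x => intro h; omega
    | @snoc n x y w z α' p q hα' hp hp' hq hq' ih =>
      intro _ hn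
      rcases Nat.eq_zero_or_pos n with rfl | hn0
      · cases hα'
        rw [Path.Homotopic.Quotient.refl_trans]
        refine ⟨w, p, q, hp, hq, rfl, ?_, ?_⟩
        · have h1 := hq' k
          rw [mul_one] at h1
          rw [Nat.zero_add, one_mul, one_mul]
          refine pc_mono h1 ?_
          have : (0 : ℝ) ≤ ((mu ^ m : ℕ) : ℝ) * (β ^ (k + m) * r) := by positivity
          linarith
        · have h1 := hp' m
          rw [mul_one] at h1
          rw [Nat.zero_add, one_mul]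
          obtain ⟨υ, hυ⟩ := hp.sm
          obtain ⟨v, hv⟩ := path_push (g := g) m υ
          have e : (fun t => g^[m] (p t)) = fun t => (v t).val := by
            funext t
            rw [hv, hυ]
          rw [e]
          refine size_up hLR v ?_ hδ.le
          rw [← e]
          exact h1
      · exact sta_step h4 g c hg εs α β δ r ρ ms mu hα hα1 hβ hβ1 hr hρ hδ hε hcs hcu hLR L k m
          hL1 hL2 hn (ih hn0 (by omega)) p q hp hp' hq hq'
  rcases Nat.eq_zero_or_pos L with rfl | hL0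
  · cases ha
    refine ⟨x, Path.refl x, Path.refl x, LPath.refl _ _, LPath.refl _ _, ?_, fun M _ => ?_,
      fun M _ => ?_⟩
    · rw [← cl_trans]
      exact cl_eq (Path.Homotopic.symm ⟨Path.Homotopy.transRefl (Path.refl x)⟩)
    · rw [dist_self]
      positivity
    · rw [dist_self]
      positivity
  · obtain ⟨y, P, Q, hP, hQ, e, hQp, hPp⟩ := key L x z a ha hL0 le_rfl
    refine ⟨y, P, Q, hP, hQ, e, fun M hM => ?_, fun M hM => ?_⟩
    · have h1 := pieces_con hβ (by positivity) (by linarith) hcu hPp (M + m) 1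
      rw [Path.source, Path.target, Function.iterate_add_apply, iterL,
        Function.iterate_add_apply, iterL] at h1
      refine h1.trans (le_trans ?_ hρc)
      refine le_trans ?_ hL2
      have h2 : β ^ (M + m) ≤ β ^ (k + m) := pow_le_pow_of_le_one hβ hβ1 (by omega)
      have h3 : ((L * mu ^ m : ℕ) : ℝ) * (β ^ (M + m) * r) ≤
          ((L * mu ^ m : ℕ) : ℝ) * (β ^ (k + m) * r) :=
        mul_le_mul_of_nonneg_left (mul_le_mul_of_nonneg_right h2 hr.le) (Nat.cast_nonneg _)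
      linarith
    · have hsz : ρ + 2 * (((L * mu ^ m : ℕ) : ℝ) * (β ^ (k + m) * r)) ≤ 2 * ρ := by linarith
      have h1 := pieces_con hα (by positivity) (by linarith) hcs (pc_mono hQp hsz) (M + k) 1
      rw [Path.source, Path.target, Function.iterate_add_apply, iterR,
        Function.iterate_add_apply, iterR] at h1
      refine h1.trans (le_trans ?_ hδc)
      refine le_trans ?_ hL1
      have h2 : α ^ (M + k) ≤ α ^ (k + m) := pow_le_pow_of_le_one hα hα1 (by omega)
      exact mul_le_mul_of_nonneg_left (mul_le_mul_of_nonneg_right h2 (by positivity))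
        (Nat.cast_nonneg _)

end Pool.Agent.Q192.PG
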