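import Pool.Agent.Q192.PG.Stm

/-!
# Project PG, job SG6: numerical lemma, pinched case
-/

set_option autoImplicit false

open Filter Topology Set Metric

namespace Pool.Agent.Q192.PG

/-- common part of `SG6` and `SG10` -/
lemma num_base {θ τ : ℝ} (h0 : 0 < θ) (h1 : θ < 1) (hτ : 0 ≤ τ) : ∃ A : ℕ, ∀ C : ℝ, ∃ B : ℕ,
    ∀ L : ℕ, ∃ k : ℕ, k + ⌈τ * k⌉₊ ≤ A * Nat.log 2 (L + 1) + B ∧ |C| * L * θ ^ k ≤ 1 := by
  obtain ⟨a, ha⟩ := exists_pow_lt_of_lt_one (show (0 : ℝ) < 1 / 2 by norm_num) h1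
  refine ⟨(1 + ⌈τ⌉₊) * a, fun C => ?_⟩
  obtain ⟨b, hb⟩ := exists_pow_lt_of_lt_one (show (0 : ℝ) < 1 / (|C| + 1) by positivity) h1
  refine ⟨(1 + ⌈τ⌉₊) * (a + b), fun L => ⟨a * (Nat.log 2 (L + 1) + 1) + b, ?_, ?_⟩⟩
  · set k : ℕ := a * (Nat.log 2 (L + 1) + 1) + b with hk
    have e1 : ⌈τ * k⌉₊ ≤ ⌈τ⌉₊ * k := by
      apply Nat.ceil_le.2
      push_cast
      exact mul_le_mul_of_nonneg_right (Nat.le_ceil τ) (Nat.cast_nonneg k)
    calc k + ⌈τ * k⌉₊ ≤ k + ⌈τ⌉₊ * k := by omega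
      _ = (1 + ⌈τ⌉₊) * a * Nat.log 2 (L + 1) + (1 + ⌈τ⌉₊) * (a + b) := by
        rw [hk]; ring
  · set n : ℕ := Nat.log 2 (L + 1) + 1 with hn
    have e2 : (L : ℝ) * (1 / 2) ^ n ≤ 1 := by
      have e3 : L + 1 < 2 ^ n := Nat.lt_pow_succ_log_self (by norm_num) (L + 1)
      have e4 : (L : ℝ) ≤ 2 ^ n := by
        have : L ≤ 2 ^ n := by omega
        exact_mod_cast this
      rw [one_div, inv_pow, ← div_eq_mul_inv, div_le_one (by positivity)]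
      exact e4
    have e5 : θ ^ (a * n + b) ≤ (1 / 2) ^ n * θ ^ b := by
      rw [pow_add, pow_mul]
      exact mul_le_mul_of_nonneg_right (pow_le_pow_left₀ (by positivity) ha.le n) (by positivity)
    have e6 : |C| * θ ^ b ≤ 1 := by
      have := mul_le_mul_of_nonneg_left hb.le (abs_nonneg C)
      refine this.trans ?_
      rw [mul_one_div, div_le_one (by positivity)]
      linarith
    calc |C| * L * θ ^ (a * n + b) ≤ |C| * L * ((1 / 2) ^ n * θ ^ b) :=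
          mul_le_mul_of_nonneg_left e5 (by positivity)
      _ = (|C| * θ ^ b) * (L * (1 / 2) ^ n) := by ring
      _ ≤ 1 * 1 := mul_le_mul e6 e2 (by positivity) (by norm_num)
      _ = 1 := one_mul 1

lemma pow_le_of_rpow {x y τ : ℝ} {k m : ℕ} (hx : 0 < x) (hx1 : x < 1) (hy : 0 ≤ y)
    (hm : τ * k ≤ m) : y ^ k * x ^ (k + m) ≤ (y * x ^ (τ + 1)) ^ k := by
  rw [mul_pow]
  refine mul_le_mul_of_nonneg_left ?_ (by positivity)
  rw [← Real.rpow_natCast (x ^ (τ + 1)) k, ← Real.rpow_mul hx.le, ← Real.rpow_natCast x (k + m)]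
  apply Real.rpow_le_rpow_of_exponent_ge hx hx1.le
  push_cast
  linarith

lemma pow_le_of_rpow' {x y τ : ℝ} {k m : ℕ} (hx : 0 < x) (hx1 : x < 1) (hy : 1 ≤ y)
    (hm : τ * k ≤ m) (hm' : (m : ℝ) ≤ τ * k + 1) :
    y ^ m * x ^ (k + m) ≤ y * (y ^ τ * x ^ (τ + 1)) ^ k := by
  have h1 : x ^ (k + m) ≤ (x ^ (τ + 1)) ^ k := by
    rw [← Real.rpow_natCast (x ^ (τ + 1)) k, ← Real.rpow_mul hx.le, ← Real.rpow_natCast x (k + m)]
    apply Real.rpow_le_rpow_of_exponent_ge hx hx1.le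
    push_cast
    linarith
  have h2 : y ^ m ≤ y * (y ^ τ) ^ k := by
    rw [← Real.rpow_natCast y m, ← Real.rpow_natCast (y ^ τ) k, ← Real.rpow_mul (by linarith)]
    calc y ^ (m : ℝ) ≤ y ^ (τ * k + 1) := Real.rpow_le_rpow_of_exponent_le hy hm'
      _ = y * y ^ (τ * k) := by
        rw [Real.rpow_add (by linarith), Real.rpow_one, mul_comm]
  rw [mul_pow, ← mul_assoc]
  exact mul_le_mul h2 h1 (by positivity) (by positivity)

theorem sG6 : SG6 := by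
  intro α β ρ ms mu hα hα1 hβ hβ1 hρ hms hmu h1 h2
  have hms' : (1 : ℝ) ≤ ms := by exact_mod_cast hms
  have hmu' : (1 : ℝ) ≤ mu := by exact_mod_cast hmu
  set θ : ℝ := max (ms * α ^ ρ) ((mu : ℝ) ^ (ρ - 1) * β ^ ρ) with hθ
  have hθ0 : 0 < θ := lt_max_of_lt_left (by positivity)
  have hθ1 : θ < 1 := max_lt h1 h2
  obtain ⟨A, hA⟩ := num_base hθ0 hθ1 (show (0 : ℝ) ≤ ρ - 1 by linarith)
  refine ⟨A, fun C => ?_⟩
  obtain ⟨B, hB⟩ := hA (|C| * mu)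
  refine ⟨B, fun L => ?_⟩
  obtain ⟨k, hk1, hk2⟩ := hB L
  rw [abs_of_nonneg (by positivity)] at hk2
  set m : ℕ := ⌈(ρ - 1) * k⌉₊ with hm
  have hm1 : (ρ - 1) * k ≤ m := Nat.le_ceil _
  have hm2 : (m : ℝ) ≤ (ρ - 1) * k + 1 :=
    (Nat.ceil_lt_add_one (mul_nonneg (by linarith) (Nat.cast_nonneg k))).le
  refine ⟨k, m, hk1, ?_, ?_⟩
  · have e1 := pow_le_of_rpow (y := (ms : ℝ)) hα hα1 (by linarith) hm1
    rw [show ρ - 1 + 1 = ρ by ring] at e1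
    have e2 : (ms * α ^ ρ) ^ k ≤ θ ^ k := pow_le_pow_left₀ (by positivity) (le_max_left _ _) k
    push_cast
    calc C * (L * (ms : ℝ) ^ k) * α ^ (k + m) = C * (L * ((ms : ℝ) ^ k * α ^ (k + m))) := by ring
      _ ≤ |C| * (L * ((ms : ℝ) ^ k * α ^ (k + m))) :=
        mul_le_mul_of_nonneg_right (le_abs_self C) (by positivity)
      _ ≤ |C| * (L * θ ^ k) := by
        refine mul_le_mul_of_nonneg_left ?_ (abs_nonneg C)
        exact mul_le_mul_of_nonneg_left (e1.trans e2) (Nat.cast_nonneg L)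
      _ ≤ |C| * (L * θ ^ k) * mu := le_mul_of_one_le_right (by positivity) hmu'
      _ = |C| * mu * L * θ ^ k := by ring
      _ ≤ 1 := hk2
  · have e1 := pow_le_of_rpow' (y := (mu : ℝ)) hβ hβ1 hmu' hm1 hm2
    rw [show ρ - 1 + 1 = ρ by ring] at e1
    have e2 : ((mu : ℝ) ^ (ρ - 1) * β ^ ρ) ^ k ≤ θ ^ k :=
      pow_le_pow_left₀ (by positivity) (le_max_right _ _) k
    push_cast
    calc C * (L * (mu : ℝ) ^ m) * β ^ (k + m) = C * (L * ((mu : ℝ) ^ m * β ^ (k + m))) := by ring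
      _ ≤ |C| * (L * ((mu : ℝ) ^ m * β ^ (k + m))) :=
        mul_le_mul_of_nonneg_right (le_abs_self C) (by positivity)
      _ ≤ |C| * (L * (mu * θ ^ k)) := by
        refine mul_le_mul_of_nonneg_left ?_ (abs_nonneg C)
        refine mul_le_mul_of_nonneg_left (e1.trans ?_) (Nat.cast_nonneg L)
        exact mul_le_mul_of_nonneg_left e2 (by linarith)
      _ = |C| * mu * L * θ ^ k := by ring
      _ ≤ 1 := hk2

end Pool.Agent.Q192.PG
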