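import Pool.Agent.Q192.PG.Stm

/-!
# Project PG, job SG8 (quantitative transport of a ball along a stable chain)
-/

set_option autoImplicit false

open Filter Topology Set Metric
open scoped Pointwise

namespace Pool.Agent.Q192.PG

open Pool.Agent.H721R2 Pool.Agent.H779R2.An Pool.Agent.Q130.UQ Pool.Agent.H789R2.AN
  Pool.Agent.H789R2.GP Pool.Agent.Q192.PI Pool.Agent.Q192.PI.B

universe u v

section

variable {X : Type u} {E : Type v} [MetricSpace X] [NormedAddCommGroup E] [NormedSpace ℝ E]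
  {S : HypSys X E}

theorem Ch.snoc {s : ℝ} {i : ℕ} {a b z : X} (h : Ch S s i a b) (h2 : S.SRel s b z) :
    Ch S s (i + 1) a z := by
  obtain ⟨c, h0, h1, h3⟩ := h
  refine ⟨fun j => if j ≤ i then c j else z, ?_, ?_, ?_⟩
  · show (if 0 ≤ i then c 0 else z) = a
    rw [if_pos (Nat.zero_le _), h0]
  · show (if i + 1 ≤ i then c (i + 1) else z) = z
    rw [if_neg (by omega)]
  · intro j hj
    show S.SRel s (if j ≤ i then c j else z) (if j + 1 ≤ i then c (j + 1) else z)
    rw [if_pos (by omega)]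
    by_cases hji : j + 1 ≤ i
    · rw [if_pos hji]
      exact h3 j (by omega)
    · rw [if_neg hji]
      have : j = i := by omega
      rw [this, h1]
      exact h2

theorem Ch.mono {s s' : ℝ} (hs : s ≤ s') {i : ℕ} {a b : X} (h : Ch S s i a b) :
    Ch S s' i a b := by
  obtain ⟨c, h0, h1, h3⟩ := h
  exact ⟨c, h0, h1, fun j hj => (h3 j hj).mono hs⟩

end

theorem sG8 : SG8.{u, v} := by
  intro X E _ _ _ _ S D ε₀ Q α β K L R σ η b ψ hSc hCht hScale hWL
  obtain ⟨C₀, hC₀, hWL⟩ := hWL
  have hG := hSc.geo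
  have hQ := hSc.Q1
  have hη := hScale.η0
  have hησ := hScale.ησ
  have hσb := hScale.σb
  have hbε := hScale.bε
  have hL := hSc.L1
  have hε := hG.pos
  have hη64 : 64 * η ≤ σ := by nlinarith
  have hσ0 : 0 < σ := by linarith
  have hσb' : 64 * σ ≤ b := by
    have h1 : σ ≤ Q * L * σ := by
      have : 1 ≤ Q * L := by nlinarith
      nlinarith
    nlinarith
  have hα := hSc.α0
  have hβ := hSc.β0
  have hK : 0 < K := by linarith [hSc.K1]
  have hR := hCht.pos
  -- constants
  set e₁ : ℝ := η / (16 * Q) with he₁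
  have he₁0 : 0 < e₁ := by positivity
  set e₂ : ℝ := 4 * Q * e₁ with he₂
  have he₂η : e₂ = η / 4 := by
    rw [he₂, he₁]
    field_simp
    ring
  have he₁₂ : 4 * e₁ ≤ e₂ := by
    rw [he₂]
    nlinarith
  have he₂0 : 0 < e₂ := by linarith
  obtain ⟨C, hC⟩ : ∃ C, C = 2 * C₀ + C₀ / e₁ + 1 := ⟨_, rfl⟩
  have hq0 : 0 < C₀ / e₁ := by positivity
  have hC0 : 0 < C := by rw [hC]; positivity
  refine ⟨e₁, he₁0, C, hC0, ?_⟩
  intro y P s p k T hs hse hch hgr1 hgr2
  obtain ⟨c, hc0, hcp, hc⟩ := hch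
  obtain ⟨t, ht⟩ : ∃ t, t = C₀ * K ^ (2 * D * T) * β ^ k := ⟨_, rfl⟩
  have hKb : 0 < K ^ (2 * D * T) * β ^ k := by positivity
  have ht0 : 0 < t := by rw [ht]; positivity
  have ht2 : 2 * t ≤ C * K ^ (2 * D * T) * β ^ k := by
    rw [ht, hC]
    nlinarith
  have ht1 : t ≤ 1 := by
    have : 2 * t ≤ 1 := ht2.trans hgr2
    linarith
  have hte : t ≤ e₁ := by
    have h1 : C₀ / e₁ * (K ^ (2 * D * T) * β ^ k) ≤ 1 := by
      refine le_trans ?_ hgr2
      rw [mul_assoc C]
      exact mul_le_mul_of_nonneg_right (by rw [hC]; linarith) hKb.le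
    have h2 : t = e₁ * (C₀ / e₁ * (K ^ (2 * D * T) * β ^ k)) := by
      rw [ht]
      field_simp
    rw [h2]
    exact mul_le_of_le_one_right he₁0.le h1
  have hpn : (p : ℝ) * e₂ * α ^ (T + k) ≤ η := by
    have h1 : (p : ℝ) * α ^ (T + k) ≤ 1 := by
      refine le_trans ?_ hgr1
      have h2 : 0 ≤ (p : ℝ) * α ^ (T + k) := by positivity
      have h3 : 1 ≤ C := by rw [hC]; linarith
      calc (p : ℝ) * α ^ (T + k) = 1 * (p * α ^ (T + k)) := by ring
        _ ≤ C * (p * α ^ (T + k)) := mul_le_mul_of_nonneg_right h3 h2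
        _ = C * p * α ^ (T + k) := by ring
    have h2 : (p : ℝ) * e₂ * α ^ (T + k) = e₂ * (p * α ^ (T + k)) := by ring
    rw [h2]
    have h3 : e₂ * ((p : ℝ) * α ^ (T + k)) ≤ e₂ * 1 := mul_le_mul_of_nonneg_left h1 he₂0.le
    linarith
  -- the set
  set A : Set X := ψ y '' ball 0 (R / 8) with hA
  have hr : 0 < R / 8 := by positivity
  have hyA : y ∈ A := ⟨0, mem_ball_self hr, hCht.zero y⟩
  have hAA : ∀ a ∈ A, ∀ a' ∈ A, UAsym S a a' := by
    rintro _ ⟨w, hw, rfl⟩ _ ⟨w', hw', rfl⟩
    rw [mem_ball_zero_iff] at hw hw'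
    exact hG.uasym _ _ (hCht.rel y w w' (by linarith) (by linarith))
  have hW2 : ∀ φ : X → X, HolT S σ η T A φ → ∀ a ∈ A,
      S.URel t (S.g.symm^[k] (φ y)) (S.g.symm^[k] (φ a)) := by
    rintro φ hφ _ ⟨w, hw, rfl⟩
    rw [mem_ball_zero_iff] at hw
    have h1 := hWL y T φ hφ k (by rw [← ht]; exact ht1) w hw
    rwa [← ht] at h1
  -- the induction
  have key : ∀ i : ℕ, i ≤ p →
      ∃ φ : X → X, HolT S σ η T A φ ∧ φ y = S.g^[k] (c i) ∧
        (∀ j : ℕ, ∀ a ∈ A, dist (S.g^[j] (S.g.symm^[k] a)) (S.g^[j] (S.g.symm^[k] (φ a))) ≤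
          i * e₂ * α ^ j) ∧
        ∀ a ∈ A, Ch S (s + 2 * t) i (S.g.symm^[k] a) (S.g.symm^[k] (φ a)) := by
    intro i
    induction i with
    | zero =>
      intro _
      refine ⟨fun a => a, ⟨hAA, hAA, fun a _ a' _ h => h, fun a _ j => ?_, fun a _ a' _ h => ?_⟩,
        ?_, fun j a _ => ?_, fun a _ => ⟨fun _ => S.g.symm^[k] a, rfl, rfl, fun i hi => ?_⟩⟩
      · rw [dist_self]
        exact hη.le
      · exact h.mono (by linarith)
      · rw [hc0]
        exact (Pool.Agent.H779R2.An.iter_iter_symm S k y).symm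
      · rw [dist_self]
        simp
      · exact absurd hi (Nat.not_lt_zero _)
    | succ i ih =>
      intro hi
      obtain ⟨φ, hφ, hφy, hφd, hφc⟩ := ih (by omega)
      have hr1 : S.SRel s (c i) (c (i + 1)) := hc i (by omega)
      obtain ⟨u, hu0⟩ : ∃ u, u = c i := ⟨_, rfl⟩
      obtain ⟨z, hz0⟩ : ∃ z, z = c (i + 1) := ⟨_, rfl⟩
      rw [← hu0, ← hz0] at hr1
      rw [← hu0] at hφy
      rw [← hz0]
      have hu : S.g.symm^[k] (φ y) = u := by
        rw [hφy, Pool.Agent.H779R2.An.iter_symm_iter]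
      have hsm' : ∀ a ∈ A, S.URel t u (S.g.symm^[k] (φ a)) := by
        intro a ha
        have h1 := hW2 φ hφ a ha
        rwa [hu] at h1
      have hsm : ∀ a ∈ A, S.URel e₁ u (S.g.symm^[k] (φ a)) := fun a ha =>
        (hsm' a ha).mono hte
      have key : ∀ a : X, ∃ w, a ∈ A → S.URel e₂ z w ∧ S.SRel e₂ (S.g.symm^[k] (φ a)) w := by
        intro a
        by_cases ha : a ∈ A
        · have h1 : dist (S.g.symm^[k] (φ a)) z ≤ 2 * e₁ := by
            have h2 := dist_triangle (S.g.symm^[k] (φ a)) u z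
            have h3 := (hsm a ha).dist_le
            have h4 := hr1.dist_le
            rw [dist_comm] at h3
            linarith
          obtain ⟨w, h2, h3⟩ := hSc.br (S.g.symm^[k] (φ a)) z (by linarith)
          have h4 : Q * dist (S.g.symm^[k] (φ a)) z ≤ e₂ := by
            rw [he₂]
            nlinarith
          exact ⟨w, fun _ => ⟨(h3.mono h4).symm, h2.mono h4⟩⟩
        · exact ⟨z, fun h => absurd h ha⟩
      choose W hW using key
      have hUW : ∀ a ∈ A, UAsym S z (W a) := fun a ha =>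
        hG.uasym _ _ ((hW a ha).1.mono (by linarith))
      have hU' : ∀ a ∈ A, UAsym S (S.g^[k] z) (S.g^[k] (W a)) := fun a ha => (hUW a ha).iter k
      have hWy : W y = z := by
        have h1 := (hW y hyA).2
        rw [hu] at h1
        exact (hG.uniq _ _ ((hr1.symm.trans h1).mono (by linarith))
          ((hW y hyA).1.mono (by linarith))).symm
      have hd : ∀ j : ℕ, ∀ a ∈ A, dist (S.g^[j] (S.g.symm^[k] a)) (S.g^[j] (W a)) ≤
          ((i + 1 : ℕ) : ℝ) * e₂ * α ^ j := by
        intro j a ha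
        have h1 := hφd j a ha
        have h2 := hSc.sc _ _ ((hW a ha).2.mono (by linarith)) j
        have h3 := (hW a ha).2.dist_le
        have h4 := dist_triangle (S.g^[j] (S.g.symm^[k] a)) (S.g^[j] (S.g.symm^[k] (φ a)))
          (S.g^[j] (W a))
        have h5 : α ^ j * dist (S.g.symm^[k] (φ a)) (W a) ≤ α ^ j * e₂ :=
          mul_le_mul_of_nonneg_left h3 (by positivity)
        push_cast
        linarith
      have hrel : ∀ a ∈ A, S.SRel η (S.g^[T] a) (S.g^[T] (S.g^[k] (W a))) := by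
        intro a ha j
        have h1 := hd (j + T + k) a ha
        have h2 : S.g^[j + T + k] (S.g.symm^[k] a) = S.g^[j] (S.g^[T] a) := by
          rw [Function.iterate_add_apply, Function.iterate_add_apply,
            Pool.Agent.H779R2.An.iter_iter_symm]
        have h3 : S.g^[j + T + k] (W a) = S.g^[j] (S.g^[T] (S.g^[k] (W a))) := by
          rw [Function.iterate_add_apply, Function.iterate_add_apply]
        rw [h2, h3] at h1
        refine h1.trans (le_trans ?_ hpn)
        have h4 : ((i + 1 : ℕ) : ℝ) ≤ p := by exact_mod_cast hi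
        have h5 : α ^ (j + T + k) ≤ α ^ (T + k) :=
          pow_le_pow_of_le_one hα.le (by linarith [hSc.α1]) (by omega)
        gcongr
      have hφ' : HolT S σ η T A (fun a => S.g^[k] (W a)) := by
        refine ⟨hAA, fun a ha a' ha' => (hU' a ha).symm.trans (hU' a' ha'), ?_, hrel, ?_⟩
        · intro a ha a' ha' he
          have h0 : W a = W a' := (S.g.injective.iterate k) he
          have h1 := (hW a ha).2
          have h2 := (hW a' ha').2
          rw [← h0] at h2
          have h3 : S.SRel (e₂ + e₂) (S.g.symm^[k] (φ a)) (S.g.symm^[k] (φ a')) :=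
            h1.trans h2.symm
          have h4 : S.URel (e₁ + e₁) (S.g.symm^[k] (φ a)) (S.g.symm^[k] (φ a')) :=
            (hsm a ha).symm.trans (hsm a' ha')
          have h5 := hG.uniq _ _ (h3.mono (by linarith)) (h4.mono (by linarith))
          exact hφ.inj ha ha' ((S.g.symm.injective.iterate k) h5)
        · intro a ha a' ha' hU
          have h1 := hφ.loc a ha a' ha' hU
          have hWW : S.URel (2 * e₂) (W a) (W a') :=
            ((hW a ha).1.symm.trans (hW a' ha').1).mono (by linarith)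
          have h2 := lp (hW a ha).2.symm (hW a' ha').2.symm hWW (T + k) (c := 2 * σ) (by
            rw [Function.iterate_add_apply, Function.iterate_add_apply,
              Pool.Agent.H779R2.An.iter_iter_symm, Pool.Agent.H779R2.An.iter_iter_symm]
            exact h1)
          rw [Function.iterate_add_apply, Function.iterate_add_apply] at h2
          have h3 := hG.URel_dist (h2.mono (max_le (by linarith) (by linarith)))
          refine h3.mono ?_
          have e1 := (hrel a ha).dist_le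
          have e2 := (hrel a' ha').dist_le
          have e3 := hU.dist_le
          have e4 := dist_triangle4 (S.g^[T] (S.g^[k] (W a))) (S.g^[T] a) (S.g^[T] a')
            (S.g^[T] (S.g^[k] (W a')))
          rw [dist_comm (S.g^[T] (S.g^[k] (W a))) (S.g^[T] a)] at e4
          linarith
      refine ⟨fun a => S.g^[k] (W a), hφ', ?_, fun j a ha => ?_, fun a ha => ?_⟩
      · show S.g^[k] (W y) = S.g^[k] z
        rw [hWy]
      · show dist (S.g^[j] (S.g.symm^[k] a)) (S.g^[j] (S.g.symm^[k] (S.g^[k] (W a)))) ≤ _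
        rw [Pool.Agent.H779R2.An.iter_symm_iter]
        exact hd j a ha
      · show Ch S (s + 2 * t) (i + 1) (S.g.symm^[k] a) (S.g.symm^[k] (S.g^[k] (W a)))
        rw [Pool.Agent.H779R2.An.iter_symm_iter]
        refine (hφc a ha).snoc ?_
        have h1 : S.URel t (S.g.symm^[k] (S.g^[k] (W y))) (S.g.symm^[k] (S.g^[k] (W a))) :=
          hW2 _ hφ' a ha
        rw [Pool.Agent.H779R2.An.iter_symm_iter, Pool.Agent.H779R2.An.iter_symm_iter, hWy] at h1
        have h2 := h1.dist_le
        have h3 := (hsm' a ha).dist_le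
        have h4 := hr1.dist_le
        have h5 := dist_triangle4 (S.g.symm^[k] (φ a)) u z (W a)
        rw [dist_comm] at h3
        have h6 := hG.SRel_dist ((hW a ha).2.mono (by linarith))
        exact h6.mono (by linarith)
  obtain ⟨φ, hφ, hφy, -, hφc⟩ := key p le_rfl
  have hφP : φ y = P := by
    rw [hφy, hcp, Pool.Agent.H779R2.An.iter_iter_symm]
  refine ⟨φ, hφ, hφP, fun w hw => ⟨?_, ?_⟩⟩
  · have h1 := hW2 φ hφ (ψ y w) ⟨w, mem_ball_zero_iff.2 hw, rfl⟩
    rw [hφP] at h1
    exact h1.mono (by linarith)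
  · exact (hφc (ψ y w) ⟨w, mem_ball_zero_iff.2 hw, rfl⟩).mono (by linarith)

end Pool.Agent.Q192.PG
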