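import Pool.Agent.Q192.PG.Stm
import Pool.Agent.Q192.PI.B12
import Pool.Agent.Q192.PI.HolT

/-!
# Project PG, job SG9 (by helper149): words have small levels, small distortion case
-/

set_option autoImplicit false
set_option linter.unusedSectionVars false
set_option linter.unusedVariables false

open Filter Topology Set Metric
open scoped Pointwise

namespace Pool.Agent.Q192.PG

open Pool.Agent.H721R2 Pool.Agent.H779R2.An Pool.Agent.Q130.UQ Pool.Agent.H789R2.AN
  Pool.Agent.H789R2.GP Pool.Agent.TH304.K289 Pool.Agent.TH289.L Pool.Agent.Y330.H Pool.Agent.Y330.G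
  Pool.Agent.Y330.J Pool.Agent.Q192.PI Pool.Agent.Q192.PI.B

universe u v

namespace S9

section

variable {X : Type u} {E : Type v} [MetricSpace X] [NormedAddCommGroup E]
  [NormedSpace ℝ E] {S : HypSys X E} {ε₀ Q α β K L R σ η b c : ℝ} {D T : ℕ} {ψ : X → V D → X}
  {φ : X → X}

theorem Ch.mono {s s' : ℝ} {p : ℕ} {a z : X} (h : Ch S s p a z) (hs : s ≤ s') :
    Ch S s' p a z := by
  obtain ⟨d, h1, h2, h3⟩ := h
  exact ⟨d, h1, h2, fun i hi => (h3 i hi).mono hs⟩

theorem Ch.symm {s : ℝ} {p : ℕ} {a z : X} (h : Ch S s p a z) : Ch S s p z a := by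
  obtain ⟨d, h1, h2, h3⟩ := h
  refine ⟨fun i => d (p - i), by simpa using h2, by simpa using h1, fun i hi => ?_⟩
  have h4 := h3 (p - (i + 1)) (by omega)
  rw [show p - (i + 1) + 1 = p - i by omega] at h4
  exact h4.symm

theorem Ch.trans {s : ℝ} {p p' : ℕ} {a z w : X} (h : Ch S s p a z) (h' : Ch S s p' z w) :
    Ch S s (p + p') a w := by
  obtain ⟨d, h1, h2, h3⟩ := h
  obtain ⟨d', h1', h2', h3'⟩ := h'
  refine ⟨fun i => if i ≤ p then d i else d' (i - p), ?_, ?_, fun i hi => ?_⟩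
  · simp only [Nat.zero_le, if_true]
    exact h1
  · dsimp only
    split_ifs with h4
    · have h5 : p' = 0 := by omega
      subst h5
      rw [Nat.add_zero, h2, ← h1', h2']
    · rw [show p + p' - p = p' by omega]
      exact h2'
  · dsimp only
    rcases Nat.lt_or_ge i p with h4 | h4
    · rw [if_pos h4.le, if_pos (by omega)]
      exact h3 i h4
    · rw [if_neg (show ¬ i + 1 ≤ p by omega)]
      have h5 := h3' (i - p) (by omega)
      rw [show i - p + 1 = i + 1 - p by omega] at h5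
      split_ifs with h6
      · have h7 : i = p := by omega
        subst h7
        rw [Nat.sub_self, h1', ← h2] at h5
        exact h5
      · exact h5

/-- the end points of a chain approach each other in the future -/
theorem Ch.dist_le (hS : Sc S ε₀ Q α β K L) {s : ℝ} (hs : s ≤ ε₀) {p : ℕ} {a z : X}
    (h : Ch S s p a z) (m : ℕ) : dist (S.g^[m] a) (S.g^[m] z) ≤ p * (α ^ m * s) := by
  obtain ⟨d, h1, h2, h3⟩ := h
  have hα0 := hS.α0
  have key : ∀ i ≤ p, dist (S.g^[m] (d 0)) (S.g^[m] (d i)) ≤ i * (α ^ m * s) := by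
    intro i
    induction i with
    | zero =>
      intro _
      simp
    | succ i ih =>
      intro hi
      have h4 := ih (by omega)
      have h5 := h3 i (by omega)
      have h6 := hS.sc _ _ (h5.mono hs) m
      have h7 : α ^ m * dist (d i) (d (i + 1)) ≤ α ^ m * s :=
        mul_le_mul_of_nonneg_left h5.dist_le (by positivity)
      have h8 := dist_triangle (S.g^[m] (d 0)) (S.g^[m] (d i)) (S.g^[m] (d (i + 1)))
      push_cast
      linarith
  have h4 := key p le_rfl
  rwa [h1, h2] at h4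

/-- the pieces of a path give a chain -/
theorem chain_of_pieces {s : ℝ} {m : ℕ} {p : unitInterval → X} (h : Pieces S.g s m p) :
    Ch S s m (p 0) (p 1) := by
  obtain ⟨θ, h1, h2, h3, h4⟩ := h
  refine ⟨fun i => p (θ i), congrArg p h2, congrArg p h3, fun i hi => ?_⟩
  exact h4 i hi _ _ le_rfl (h1 (Nat.le_succ i)) (h1 (Nat.le_succ i)) le_rfl

/-- one piece -/
theorem nice_one {δ : ℝ} {mu : ℕ} {p : unitInterval → X} (h : Nice S.g.symm δ mu 1 p) (r r' : unitInterval) :
    S.URel δ (p r) (p r') := by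
  obtain ⟨θ, h1, h2, h3, h4⟩ := h 0
  rw [pow_zero, mul_one] at h3 h4
  have h5 := h4 0 zero_lt_one r r' (by rw [h2]; exact unitInterval.nonneg')
    (by rw [zero_add, h3]; exact unitInterval.le_one') (by rw [h2]; exact unitInterval.nonneg')
    (by rw [zero_add, h3]; exact unitInterval.le_one')
  exact h5

variable [CompactSpace X]

/-- the strip over an unstable path in the ball -/
theorem exists_strip (hS : Sc S ε₀ Q α β K L) (hs : Scale ε₀ R Q L σ η b) {A : Set X}
    (hφ : HolT S σ η T A φ) (υ : C(unitInterval, SM S.g.symm)) (hmem : ∀ t, (υ t).val ∈ A) :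
    ∃ Γ : C(unitInterval, Pr S.g), (∀ t, (Γ t).x = (υ t).val) ∧ ∀ t, (Γ t).y = φ (υ t).val := by
  have hG := hS.geo
  obtain ⟨hσ0, hb0, f1, f2, f3, f4⟩ := hs.facts hS.Q1 hS.L1
  have hbε := hs.bε
  have hη0 := hs.η0
  have hηε : η ≤ ε₀ := by linarith
  have hws : ∀ t, WS S.g (υ t).val (φ (υ t).val) := fun t =>
    SAsym.of_iter T (hG.sasym _ _ ((hφ.rel _ (hmem t)).mono hηε))
  have hcont : Continuous fun t : unitInterval => (⟨(υ t).val, φ (υ t).val, hws t⟩ : Pr S.g) := by
    rw [Pr.continuous_iff]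
    refine ⟨υ.continuous, ?_, fun t ε hε => ?_⟩
    · rw [Metric.continuous_iff']
      intro t ε hε
      obtain ⟨δ, hδ, hd⟩ := J12.cont hG hφ (by linarith) hσ0 (by linarith) (half_pos hε)
      have h1 := (Metric.continuous_iff'.1 υ.continuous) t δ hδ
      filter_upwards [h1] with t' ht'
      have h2 : S.URel δ (υ t').val (υ t).val := (SM.dist_le _ _ hδ.le).1 ht'.le
      have h3 := hd _ (hmem t') _ (hmem t) h2
      have h4 : dist (⟨φ (υ t').val⟩ : SM S.g.symm) ⟨φ (υ t).val⟩ ≤ ε / 2 :=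
        (SM.dist_le _ _ (half_pos hε).le).2 h3
      exact lt_of_le_of_lt h4 (half_lt_self hε)
    · obtain ⟨n, hn⟩ := exists_pow_lt η hε
      refine ⟨n + T, Eventually.of_forall fun t' k hk => ?_⟩
      obtain ⟨j, rfl⟩ : ∃ j, k = j + T := ⟨k - T, by omega⟩
      have h1 := (SRel_decay hG hηε (hφ.rel _ (hmem t')) j).dist_le
      rw [← Function.iterate_add_apply, ← Function.iterate_add_apply] at h1
      exact h1.trans (hn j (by omega))
  exact ⟨⟨_, hcont⟩, fun t => rfl, fun t => rfl⟩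

/-- the state after `j` steps -/
def St (S : HypSys X E) (ρ t : ℝ) (ms k j : ℕ) {x z : X} (a : Path.Homotopic.Quotient x z) :
    Prop :=
  ∃ (y : X) (p : Path x y) (q : Path y z), LPath S.g.symm p ∧ LPath S.g q ∧
    a = (cl p).trans (cl q) ∧ S.URel (j * t) (S.g.symm^[k] x) (S.g.symm^[k] y) ∧
    Ch S (ρ + j * t) (j * ms ^ k) (S.g.symm^[k] z) (S.g.symm^[k] y)

theorem step (hg : LP S.g c) (hex : Ex S.g) (hS : Sc S ε₀ Q α β K L) (hC : Cht S D ε₀ R ψ)
    (hs : Scale ε₀ R Q L σ η b) {e C : ℝ} (hQT : QT S D α β K R σ η ψ e C) {ρ δ t : ℝ}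
    {ms mu k : ℕ} (ht : t = C * K ^ (2 * D * T) * β ^ k) (ht0 : 0 ≤ t) (hρ : 0 < ρ)
    (hδR : 32 * δ ≤ R) {n j : ℕ} (hj : j + 1 ≤ n) (hne : ρ + n * t ≤ e)
    (h1 : C * ((n * ms ^ k : ℕ) : ℝ) * α ^ (T + k) ≤ 1) (hC0 : 0 < C)
    (h2 : C * K ^ (2 * D * T) * β ^ k ≤ 1) {x y w z : X} {a : Path.Homotopic.Quotient x y}
    (p : Path y w) (q : Path w z) (hp : LPath S.g.symm p) (hpn : Nice S.g.symm δ mu 1 fun t => p t)
    (hq : LPath S.g q) (hqn : Nice S.g ρ ms 1 fun t => q t) (ha : St S ρ t ms k j a) :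
    St S ρ t ms k (j + 1) ((a.trans (cl p)).trans (cl q)) := by
  have hG := hS.geo
  have hR := hC.pos
  have hα0 := hS.α0
  obtain ⟨a₀, P, Q', hP, hQ', rfl, hU, hCh⟩ := ha
  have hjn : (j : ℝ) ≤ n := by exact_mod_cast (by omega : j ≤ n)
  have hjt : (j : ℝ) * t ≤ n * t := mul_le_mul_of_nonneg_right hjn ht0
  have hjt0 : 0 ≤ (j : ℝ) * t := by positivity
  obtain ⟨φ, hφ, hφy, hφ2⟩ := hQT y a₀ (ρ + j * t) (j * ms ^ k) k T (by positivity)
    (by linarith) hCh (by
      refine le_trans ?_ h1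
      apply mul_le_mul_of_nonneg_right _ (by positivity)
      apply mul_le_mul_of_nonneg_left _ hC0.le
      exact_mod_cast Nat.mul_le_mul_right _ (by omega : j ≤ n)) h2
  rw [← ht] at hφ2
  -- the points of `p` are in the ball
  have hball : ∀ r : unitInterval, ∃ w', ‖w'‖ < R / 8 ∧ ψ y w' = p r := by
    intro r
    have h3 := nice_one hpn 0 r
    rw [p.source] at h3
    obtain ⟨w', hw1, hw2⟩ := hC.surj y (p r) (h3.mono (by linarith))
    refine ⟨w', ?_, hw2⟩
    have h4 := hC.ge y w' 0 hw1 (by rw [norm_zero]; exact hR.le)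
    rw [sub_zero, hw2, hC.zero, dist_comm] at h4
    have h5 := h3.dist_le
    linarith
  obtain ⟨υ, hυ⟩ := hp.sm
  obtain ⟨Γ, hΓx, hΓy⟩ := exists_strip hS hs hφ υ (fun r => by
    obtain ⟨w', hw1, hw2⟩ := hball r
    exact ⟨w', by simpa using hw1, by rw [hυ]; exact hw2⟩)
  obtain ⟨Rr, hRr, r1, r2⟩ := hex y a₀ w Q'.symm p hQ'.symm hp
  obtain ⟨Γ', g1, g2⟩ := hRr.strip 0 1
  have huniq := strip_unique hg Γ' Γ (fun r => by rw [g1, r2, hΓx, hυ]) (t₀ := 0) (by
    rw [g2, r1, hΓy, hυ, p.source, hφy]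
    exact Q'.symm.target)
  have hright : ∀ r, Rr 1 r = φ (p r) := by
    intro r
    have := huniq r
    rw [g2, hΓy, hυ] at this
    exact this
  have hcorner : Rr 1 1 = φ w := by rw [hright, p.target]
  obtain ⟨r', hr', hr''⟩ := Rc.right (y := Rr 1 1) hRr (x := a₀) (by rw [r1]; simp) rfl
  obtain ⟨tp, htp, htp'⟩ := Rc.top (y := Rr 1 1) hRr (x := w) (by rw [r2]; simp) rfl
  have hsw := swap_cl hRr.cont (α := Q'.symm) (β := r') (β' := p) (α' := tp) r1
    (fun r => (hr'' r).symm) r2 (fun s => (htp' s).symm)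
  rw [Path.symm_symm] at hsw
  obtain ⟨w', hw1, hw2⟩ := hball 1
  rw [p.target] at hw2
  have hend := hφ2 w' hw1
  rw [hw2, ← hcorner] at hend
  refine ⟨Rr 1 1, P.trans r', tp.symm.trans q, hP.trans hr', htp.symm.trans hq, ?_, ?_, ?_⟩
  · rw [cl_trans, cl_trans, Path.Homotopic.Quotient.trans_assoc,
      Path.Homotopic.Quotient.trans_assoc, Path.Homotopic.Quotient.trans_assoc,
      ← Path.Homotopic.Quotient.trans_assoc (cl Q'), hsw, Path.Homotopic.Quotient.trans_assoc]
  · refine (hU.trans hend.1).mono (le_of_eq ?_)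
    push_cast
    ring
  · have h3 := chain_of_pieces (hqn k)
    dsimp only at h3
    rw [q.source, q.target, mul_one] at h3
    have h4 : Ch S (ρ + ((j + 1 : ℕ) : ℝ) * t) (ms ^ k) (S.g.symm^[k] z) (S.g.symm^[k] w) :=
      Ch.mono (Ch.symm h3) (by
        have : 0 ≤ ((j + 1 : ℕ) : ℝ) * t := by positivity
        linarith)
    have h5 : Ch S (ρ + ((j + 1 : ℕ) : ℝ) * t) (j * ms ^ k) (S.g.symm^[k] w)
        (S.g.symm^[k] (Rr 1 1)) := Ch.mono hend.2 (le_of_eq (by push_cast; ring))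
    have h6 := Ch.trans h4 h5
    rwa [show ms ^ k + j * ms ^ k = (j + 1) * ms ^ k by ring] at h6

end

end S9

open S9 in
/-- **SG9** -/
theorem sG9 : SG9.{u, v} := by
  intro X E _ _ _ _ S D ε₀ Q α β K L R σ η b c ψ e C hg hex hS hC hs he hC0 hQT ρ δ ms mu hρ hρe
    hρε hδ hδR
  have hα0 := hS.α0
  have hα1 := hS.α1
  have hβ0 := hS.β0
  have hK := hS.K1
  have hc := hg.c_pos
  refine ⟨C + C / ρ + 4 * ρ / c + 2 * C / c, by positivity, fun n k T h1 h2 x z a hW => ?_⟩
  set t := C * K ^ (2 * D * T) * β ^ k with ht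
  have hP0 : 0 < K ^ (2 * D * T) * β ^ k := by positivity
  have ht0 : 0 ≤ t := by positivity
  have hq1 : 0 < C / ρ := by positivity
  have hq2 : 0 < 4 * ρ / c := by positivity
  have hq3 : 0 < 2 * C / c := by positivity
  -- consequences of the hypotheses
  have hn2 : ∀ A : ℝ, 0 ≤ A → A ≤ C + C / ρ + 4 * ρ / c + 2 * C / c →
      A * (n * (K ^ (2 * D * T) * β ^ k)) ≤ 1 := by
    intro A hA hA2
    have h3 : 0 ≤ (n : ℝ) * (K ^ (2 * D * T) * β ^ k) := by positivity
    have h4 := mul_le_mul_of_nonneg_right hA2 h3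
    refine h4.trans (le_trans (le_of_eq ?_) h2)
    ring
  have hn1 : ∀ A : ℝ, 0 ≤ A → A ≤ C + C / ρ + 4 * ρ / c + 2 * C / c →
      A * (((n * ms ^ k : ℕ) : ℝ) * α ^ (T + k)) ≤ 1 := by
    intro A hA hA2
    have h3 : 0 ≤ ((n * ms ^ k : ℕ) : ℝ) * α ^ (T + k) := by positivity
    have h4 := mul_le_mul_of_nonneg_right hA2 h3
    refine h4.trans (le_trans (le_of_eq ?_) h1)
    ring
  have hnt : n * t ≤ ρ := by
    have h3 := hn2 (C / ρ) hq1.le (by linarith)
    have e1 : C / ρ * (n * (K ^ (2 * D * T) * β ^ k)) = n * t / ρ := by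
      rw [ht]
      field_simp
    rw [e1, div_le_one hρ] at h3
    exact h3
  have hntc : n * t ≤ c / 2 := by
    have h3 := hn2 (2 * C / c) hq3.le (by linarith)
    have e1 : 2 * C / c * (n * (K ^ (2 * D * T) * β ^ k)) = 2 * (n * t) / c := by
      rw [ht]
      field_simp
    rw [e1, div_le_one hc] at h3
    linarith
  -- the induction
  have key : ∀ (j : ℕ) (x z : X) (a : Path.Homotopic.Quotient x z), Wd S.g ρ δ ms mu j a →
      j ≤ n → St S ρ t ms k j a := by
    intro j x z a hW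
    induction hW with
    | nil x =>
      intro _
      refine ⟨x, Path.refl x, Path.refl x, LPath.refl _ _, LPath.refl _ _, ?_, fun i => ?_,
        ⟨fun _ => S.g.symm^[k] x, rfl, rfl, fun i hi => ?_⟩⟩
      · exact (Path.Homotopic.Quotient.refl_trans _).symm
      · rw [dist_self]
        positivity
      · omega
    | @snoc j x y w z a p q hW hp hpn hq hqn ih =>
      intro hj
      have hn0 : (1 : ℝ) ≤ n := by exact_mod_cast (by omega : 1 ≤ n)
      refine step hg hex hS hC hs hQT ht ht0 hρ hδR hj (by linarith) ?_ hC0 ?_ p q hp hpn hq hqn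
        (ih (by omega))
      · have := hn1 C hC0.le (by linarith)
        rw [mul_assoc]
        exact this
      · have h3 := hn2 C hC0.le (by linarith)
        have h4 : C * (K ^ (2 * D * T) * β ^ k) ≤ C * (n * (K ^ (2 * D * T) * β ^ k)) := by
          apply mul_le_mul_of_nonneg_left _ hC0.le
          exact le_mul_of_one_le_left hP0.le hn0
        rw [mul_assoc]
        exact h4.trans h3
  obtain ⟨y, p, q, hp, hq, rfl, hU, hCh⟩ := key n x z a hW le_rfl
  refine ⟨y, p, q, hp, hq, rfl, fun m hm => ?_, fun m hm => ?_⟩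
  · have h3 := hU (m - k)
    rw [← Function.iterate_add_apply, ← Function.iterate_add_apply,
      Nat.sub_add_cancel (by omega)] at h3
    exact h3.trans hntc
  · have h3 := Ch.dist_le hS hρε (Ch.mono hCh (show ρ + n * t ≤ 2 * ρ by linarith)) (m + k)
    rw [Function.iterate_add_apply, Function.iterate_add_apply, iter_iter_symm,
      iter_iter_symm, dist_comm] at h3
    refine h3.trans ?_
    have h4 : α ^ (m + k) ≤ α ^ (T + k) :=
      pow_le_pow_of_le_one hα0.le (by linarith) (by omega)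
    have h5 := hn1 (4 * ρ / c) hq2.le (by linarith)
    have e1 : 4 * ρ / c * (((n * ms ^ k : ℕ) : ℝ) * α ^ (T + k)) =
        2 * (((n * ms ^ k : ℕ) : ℝ) * (α ^ (T + k) * (2 * ρ))) / c := by ring
    rw [e1, div_le_one hc] at h5
    have h6 : ((n * ms ^ k : ℕ) : ℝ) * (α ^ (m + k) * (2 * ρ)) ≤
        ((n * ms ^ k : ℕ) : ℝ) * (α ^ (T + k) * (2 * ρ)) := by
      apply mul_le_mul_of_nonneg_left _ (Nat.cast_nonneg _)
      exact mul_le_mul_of_nonneg_right h4 (by positivity)
    linarith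

end Pool.Agent.Q192.PG
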