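import Pool.Agent.Q192.PG.Main
import Pool.Agent.Q192.PG.MainB
import Pool.Agent.Q192.PG.S1
import Pool.Agent.Q192.PG.S2
import Pool.Agent.Q192.PG.S3
import Pool.Agent.Q192.PG.S4
import Pool.Agent.Q192.PG.S5
import Pool.Agent.Q192.PG.S6
import Pool.Agent.Q192.PG.S7
import Pool.Agent.Q192.PG.S8
import Pool.Agent.Q192.PG.S9
import Pool.Agent.Q192.PG.S10
import Pool.Agent.Q192.PI.A8
import Pool.Agent.Q192.PI.BFin

/-!
# Project PG: the final form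
-/

set_option autoImplicit false
set_option linter.unusedSectionVars false

open Filter Topology Set Metric
open scoped Manifold ContDiff

namespace Pool.Agent.Q192.PG

open Pool.Agent.H721R2 Pool.Agent.H779R2.An Pool.Agent.Q130.UQ Pool.Agent.H789R2.AN
  Pool.Agent.H789R2.GP Pool.Agent.TH304.K289 Pool.Agent.TH289.L Pool.Agent.TH289
  Pool.Agent.TH289.K Pool.Agent.Q192.PI Pool.Agent.Q192.PI.B Pool.Agent.Y330.J
open Pool.Agent.W740.TU (anosov_symm)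

universe u v

variable {E : Type v} [NormedAddCommGroup E] [NormedSpace ℝ E] [FiniteDimensional ℝ E]
  {M : Type u} [TopologicalSpace M] [T2Space M] [CompactSpace M] [ConnectedSpace M]
  [ChartedSpace E M] [IsManifold 𝓘(ℝ, E) ∞ M]

/-- **Pinched case.** -/
theorem fin_pinch (f : Diffeomorph 𝓘(ℝ, E) 𝓘(ℝ, E) M M 1)
    (Es Eu : ∀ x : M, Submodule ℝ (TangentSpace 𝓘(ℝ, E) x))
    (N : TangentBundle 𝓘(ℝ, E) M → ℝ) (hN : IsTangentNorm N) (C μ₁ μ₂ l₁ l₂ : ℝ)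
    (hf : AnosovRates f N Es Eu C μ₁ μ₂ l₁ l₂)
    (hp : 1 < Real.log l₁ / Real.log l₂ + Real.log μ₂ / Real.log μ₁) : PG M :=
  man_pgA sG1 sG2 sG3 (sG5 sG4) sG6 f Es Eu N hN C μ₁ μ₂ l₁ l₂ hf hp

/-- **Subexponential distortion on one bundle.** -/
theorem fin_sub (f : Diffeomorph 𝓘(ℝ, E) 𝓘(ℝ, E) M M 1)
    (Es Eu : ∀ x : M, Submodule ℝ (TangentSpace 𝓘(ℝ, E) x)) (hA : IsAnosov f Es Eu)
    (N : TangentBundle 𝓘(ℝ, E) M → ℝ) (hN : IsTangentNorm N)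
    (h : ((∀ x, 2 ≤ Module.finrank ℝ (Eu x)) ∧ SubexpDistortion f N Eu) ∨
      ((∀ x, 2 ≤ Module.finrank ℝ (Es x)) ∧ SubexpDistortion f.symm N Es)) : PG M := by
  rcases h with ⟨h1, h2⟩ | ⟨h1, h2⟩
  · exact man_pg_sub sG1 sG2 sG3 sG7 sG8 sG9 sG10 f Es Eu hA N hN h1 h2
  · exact man_pg_sub sG1 sG2 sG3 sG7 sG8 sG9 sG10 f.symm Eu Es (anosov_symm f Es Eu hA) N hN h1 h2

/-- **Small exponential distortion.** -/
theorem fin_quant (f : Diffeomorph 𝓘(ℝ, E) 𝓘(ℝ, E) M M 1)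
    (Es Eu : ∀ x : M, Submodule ℝ (TangentSpace 𝓘(ℝ, E) x))
    (N : TangentBundle 𝓘(ℝ, E) M → ℝ) (hN : IsTangentNorm N) (C μ₁ μ₂ l₁ l₂ C₁ κ : ℝ)
    (hf : AnosovRates f N Es Eu C μ₁ μ₂ l₁ l₂) (D : ℕ) (hD : 2 ≤ D)
    (hrk : ∀ x, Module.finrank ℝ (Eu x) = D) (hκ : 1 ≤ κ) (hd : DistortionOn f N Eu C₁ κ)
    (hp : 2 * D * Real.log κ * (Real.log μ₂ - Real.log μ₁) <
      -Real.log μ₂ * Real.log l₁) : PG M :=
  man_pg_quant sG1 sG2 sG3 sG7 sG8 sG9 sG10 f Es Eu N hN C μ₁ μ₂ l₁ l₂ C₁ κ hf D hD hrk hκ hd hp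

end Pool.Agent.Q192.PG
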