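import Pool.Agent.Q192.PG.Stm
import Pool.Agent.Q192.PI.A8

/-!
# Project PG: assembly, pinched case
-/

set_option autoImplicit false
set_option linter.unusedSectionVars false

open Filter Topology Set Metric
open scoped Manifold ContDiff Pointwise

namespace Pool.Agent.Q192.PG

open Pool.Agent.H721R2 Pool.Agent.H779R2.An Pool.Agent.Q130.UQ Pool.Agent.H789R2.AN
  Pool.Agent.H789R2.GP Pool.Agent.TH304.K289 Pool.Agent.TH289.L Pool.Agent.Y330.H Pool.Agent.Y330.G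
  Pool.Agent.Y330.J Pool.Agent.Q192.PI Pool.Agent.Q192.PI.B Pool.Agent.TH289.K

universe u v

theorem log_bound (L n : ℕ) : Nat.log 2 (L * n + 1) ≤ Nat.log 2 (n + 1) + L := by
  have h1 : ∀ k m : ℕ, 0 < m → Nat.log 2 (2 ^ k * m) = k + Nat.log 2 m := by
    intro k
    induction k with
    | zero => intro m _; simp
    | succ k ih =>
      intro m hm
      rw [pow_succ, mul_assoc, ih _ (by omega), mul_comm 2 m, Nat.log_mul_base (by norm_num)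
        (by omega)]
      omega
  have h2 : L * n + 1 ≤ 2 ^ L * (n + 1) := by
    have h3 : L < 2 ^ L := Nat.lt_two_pow_self
    nlinarith [Nat.zero_le n, Nat.one_le_two_pow (n := L)]
  calc Nat.log 2 (L * n + 1) ≤ Nat.log 2 (2 ^ L * (n + 1)) := Nat.log_mono_right h2
    _ = L + Nat.log 2 (n + 1) := h1 L _ (by omega)
    _ = _ := by omega

theorem Nd.mono {X : Type u} [MetricSpace X] {g : X ≃ₜ X} {c : ℝ} {l l' : ℕ} {x z : X}
    {α : Path.Homotopic.Quotient x z} (h : Nd g c l α) (hl : l ≤ l') : Nd g c l' α := by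
  obtain ⟨y, p, q, h1, h2, h3, h4, h5⟩ := h
  exact ⟨y, p, q, h1, h2, h3, fun m hm => h4 m (hl.trans hm), fun m hm => h5 m (hl.trans hm)⟩

/-- Polynomial growth from the bounds for words. -/
theorem pg_of (h1 : SG1.{u}) (h2 : SG2.{u}) (h3 : SG3.{u}) {X : Type u} [MetricSpace X]
    [CompactSpace X] (g : X ≃ₜ X) (c : ℝ) (hg : LP g c) (hX : ULC X) (ρ δ : ℝ) (ms mu : ℕ)
    (hρ : 0 < ρ) (hδ : 0 < δ) (hms : 1 ≤ ms) (hmu : 1 ≤ mu) (hr : Rad g ρ ms)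
    (hr' : Rad g.symm δ mu) (A B : ℕ) (h : ∀ L : ℕ, ∃ l ≤ A * Nat.log 2 (L + 1) + B,
      ∀ (x z : X) (a : Path.Homotopic.Quotient x z), Wd g ρ δ ms mu L a → Nd g c l a) : PG X := by
  refine h1 X g c hg hX A fun x S hS => ?_
  obtain ⟨L, hL⟩ := h3 X g ρ δ ms mu hρ hδ hms hmu
    (h2 X g c hg hX ρ δ ms mu hρ hδ hr hr') x S hS
  refine ⟨A * L + B, fun n α hα => ?_⟩
  obtain ⟨l, hl, h4⟩ := h (L * n)
  refine (h4 x x α (hL n α hα)).mono (hl.trans ?_)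
  have := Nat.mul_le_mul_left A (log_bound L n)
  rw [Nat.mul_add] at this
  omega

/-- The pinched case for hyperbolic systems. -/
theorem pgA (h1 : SG1.{u}) (h2 : SG2.{u}) (h3 : SG3.{u}) (h5 : SG5.{u}) (h6 : SG6)
    {X : Type u} {E : Type v} [MetricSpace X] [CompactSpace X]
    [NormedAddCommGroup E] [NormedSpace ℝ E] [FiniteDimensional ℝ E] (S : HypSys X E)
    (hX : ULC X) (ds du ms mu : ℕ) (α β e : ℝ)
    (hds : ∀ x, Module.finrank ℝ (S.Vs x) = ds) (hdu : ∀ x, Module.finrank ℝ (S.Vu x) = du)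
    (hα0 : 0 < α) (hβ0 : 0 < β)
    (hα : S.a < α) (hβ : S.b < β) (hα2 : α ≤ 1 / 2) (hβ2 : β ≤ 1 / 2) (hms : 4 * S.Ls ≤ ms)
    (hmu : 4 * S.Lu ≤ mu) (he : 1 ≤ e) (hm1 : ms * α ^ e < 1)
    (hm2 : (mu : ℝ) ^ (e - 1) * β ^ e < 1) : PG X := by
  obtain ⟨c, hg⟩ := exists_LP S
  have hc := hg.c_pos
  obtain ⟨ε₁, hε₁, hc1⟩ := S.contraction_iter α hα
  obtain ⟨ε₂, hε₂, hc2⟩ := S.symm.contraction_iter β hβ
  obtain ⟨εs, hεs0, hεs1, hεs2, hεsc⟩ : ∃ εs > 0, εs ≤ ε₁ ∧ εs ≤ ε₂ ∧ εs ≤ c :=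
    ⟨min (min ε₁ ε₂) c, by positivity, (min_le_left _ _).trans (min_le_left _ _),
      (min_le_left _ _).trans (min_le_right _ _), min_le_right _ _⟩
  obtain ⟨ρ, hρ⟩ : ∃ ρ, ρ = εs / 4 := ⟨_, rfl⟩
  have hρ0 : 0 < ρ := by rw [hρ]; positivity
  obtain ⟨δ₁, hδ₁, hLR₁⟩ := sA1 X S.g c hg ρ hρ0
  obtain ⟨δ, hδ, hδ1, hδc⟩ : ∃ δ > 0, δ ≤ δ₁ ∧ δ ≤ c / 2 :=
    ⟨min δ₁ (c / 2), by positivity, min_le_left _ _, min_le_right _ _⟩
  have hLR : LR S.g δ ρ := fun τ w h0 h1 h2 => hLR₁ τ w h0 (fun s => (h1 s).mono hδ1)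
    (fun t => (h2 t).mono hδ1)
  have hC1 : Cn S.g εs α := fun x y hxy k => hc1 x y (fun j => (hxy j).trans hεs1) k
  have hC2 : Cn S.g.symm εs β := fun x y hxy k => hc2 x y (fun j => (hxy j).trans hεs2) k
  have hms1 : 1 ≤ ms := by
    have := S.one_le_Ls
    have h3 : (1 : ℝ) ≤ ms := by linarith
    exact_mod_cast h3
  have hmu1 : 1 ≤ mu := by
    have := S.one_le_Lu
    have h3 : (1 : ℝ) ≤ mu := by linarith
    exact_mod_cast h3
  have hr : Rad S.g ρ ms := Pool.Agent.Q237.PI.sA5 X E S ds ms hds hms ρ hρ0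
  have hr' : Rad S.g.symm δ mu := Pool.Agent.Q237.PI.sA5 X E S.symm du mu hdu hmu δ hδ
  obtain ⟨A, hA⟩ := h6 α β e ms mu hα0 (by linarith) hβ0 (by linarith) he hms1 hmu1 hm1 hm2
  obtain ⟨B, hB⟩ := hA (2 * ρ / δ + 2)
  refine pg_of h1 h2 h3 S.g c hg hX ρ δ ms mu hρ0 hδ hms1 hmu1 hr hr' A B fun L => ?_
  obtain ⟨k, m, hkm, g1, g2⟩ := hB L
  refine ⟨k + m, hkm, fun x z a ha => ?_⟩
  refine h5 X S.g c hg εs α β δ ρ ρ ms mu hα0.le (by linarith) hβ0.le (by linarith) hρ0 hρ0 hδ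
    (by rw [hρ]; linarith) hδc (by rw [hρ]; linarith) hC1 hC2 hLR L k m ?_ ?_ x z a ha
  · have e1 : 0 ≤ ((L * ms ^ k : ℕ) : ℝ) * α ^ (k + m) := by positivity
    have e2 : 2 * ρ = (2 * ρ / δ) * δ := by field_simp
    calc ((L * ms ^ k : ℕ) : ℝ) * (α ^ (k + m) * (2 * ρ))
        = ((2 * ρ / δ) * (((L * ms ^ k : ℕ) : ℝ) * α ^ (k + m))) * δ := by
          conv_lhs => rw [e2]
          ring
      _ ≤ ((2 * ρ / δ + 2) * (((L * ms ^ k : ℕ) : ℝ) * α ^ (k + m))) * δ := by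
          apply mul_le_mul_of_nonneg_right _ hδ.le
          apply mul_le_mul_of_nonneg_right _ e1
          linarith
      _ ≤ 1 * δ := by
          apply mul_le_mul_of_nonneg_right _ hδ.le
          rw [← mul_assoc]
          exact g1
      _ = δ := one_mul _
  · have e1 : 0 ≤ ((L * mu ^ m : ℕ) : ℝ) * β ^ (k + m) := by positivity
    have e3 : 0 ≤ 2 * ρ / δ := by positivity
    calc 2 * (((L * mu ^ m : ℕ) : ℝ) * (β ^ (k + m) * ρ))
        = (2 * (((L * mu ^ m : ℕ) : ℝ) * β ^ (k + m))) * ρ := by ring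
      _ ≤ ((2 * ρ / δ + 2) * (((L * mu ^ m : ℕ) : ℝ) * β ^ (k + m))) * ρ := by
          apply mul_le_mul_of_nonneg_right _ hρ0.le
          apply mul_le_mul_of_nonneg_right _ e1
          linarith
      _ ≤ 1 * ρ := by
          apply mul_le_mul_of_nonneg_right _ hρ0.le
          rw [← mul_assoc]
          exact g2
      _ = ρ := one_mul _

section manifold

variable {E : Type*} [NormedAddCommGroup E] [NormedSpace ℝ E] [FiniteDimensional ℝ E]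
  {M : Type u} [TopologicalSpace M] [T2Space M] [CompactSpace M] [ConnectedSpace M]
  [ChartedSpace E M] [IsManifold 𝓘(ℝ, E) ∞ M]

/-- Polynomial growth of the fundamental group of a manifold with a pinched Anosov
diffeomorphism. -/
theorem man_pgA (h1 : SG1.{u}) (h2 : SG2.{u}) (h3 : SG3.{u}) (h5 : SG5.{u}) (h6 : SG6)
    (f : Diffeomorph 𝓘(ℝ, E) 𝓘(ℝ, E) M M 1)
    (Es Eu : ∀ x : M, Submodule ℝ (TangentSpace 𝓘(ℝ, E) x))
    (N : TangentBundle 𝓘(ℝ, E) M → ℝ) (hN : IsTangentNorm N) (C μ₁ μ₂ l₁ l₂ : ℝ)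
    (hf : AnosovRates f N Es Eu C μ₁ μ₂ l₁ l₂)
    (hp : 1 < Real.log l₁ / Real.log l₂ + Real.log μ₂ / Real.log μ₁) : PG M := by
  obtain ⟨m, ee, hee, hemb, hinje⟩ :=
    exists_embedding_euclidean_of_compact (I := 𝓘(ℝ, E)) (M := M)
  let _ : MetricSpace M := hemb.isEmbedding.comapMetricSpace ee
  have hiso : ∀ x y : M, dist x y = ‖ee x - ee y‖ := fun x y => dist_eq_norm (ee x) (ee y)
  have he1 : ContMDiff 𝓘(ℝ, E) (𝓡 m) 1 ee := hee.of_le (by simp)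
  obtain ⟨C', hE⟩ := eanosov_of_rates hN ee he1 hinje f.toHomeomorph f.contMDiff
    f.symm.contMDiff Es Eu C μ₁ μ₂ l₁ l₂ hf
  obtain ⟨K, hK, hang⟩ := hE.angle he1 hinje
  have hC := hE.C_pos
  have hC0 : 0 < C' := by linarith
  have ha0 := hE.a_pos
  have hb0 := hE.b_pos
  have hLs := hE.Ls_le
  have hLu := hE.Lu_le
  obtain ⟨ρ, hρ, h1', h2'⟩ := exists_rho hf.mu_pos hf.mu_le hf.mu_lt hf.lam_gt hf.lam_le hp
  obtain ⟨n, hn1, hKa, hKb, h3', h4', h5', h6'⟩ := exists_good_N C' μ₂ l₁⁻¹ μ₁⁻¹ l₂ ρ K hC hE.a_pos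
    hE.a_lt hE.b_pos hE.b_lt hE.Ls_le hE.Lu_le hρ h1' h2' hK
  obtain ⟨S, hg, hSa, hSb, hSLs, hSLu, hSK⟩ := exists_hypSys hiso he1 hinje hE K hK hang n hKa hKb
  have haN : 0 < C' * μ₂ ^ n := by positivity
  have hbN : 0 < C' * l₁⁻¹ ^ n := by positivity
  have hLsN : 1 ≤ C' * μ₁⁻¹ ^ n := by
    have := one_le_pow₀ hLs (n := n)
    nlinarith
  have hLuN : 1 ≤ C' * l₂ ^ n := by
    have := one_le_pow₀ hLu (n := n)
    nlinarith
  set ms := ⌈4 * (C' * μ₁⁻¹ ^ n)⌉₊ with hms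
  set mu := ⌈4 * (C' * l₂ ^ n)⌉₊ with hmu
  have hms1 : 4 * (C' * μ₁⁻¹ ^ n) ≤ ms := Nat.le_ceil _
  have hmu1 : 4 * (C' * l₂ ^ n) ≤ mu := Nat.le_ceil _
  have hms2 : (ms : ℝ) ≤ 5 * C' * μ₁⁻¹ ^ n := by
    have := Nat.ceil_lt_add_one (by positivity : 0 ≤ 4 * (C' * μ₁⁻¹ ^ n))
    linarith
  have hmu2 : (mu : ℝ) ≤ 5 * C' * l₂ ^ n := by
    have := Nat.ceil_lt_add_one (by positivity : 0 ≤ 4 * (C' * l₂ ^ n))
    linarith
  have k1 : (ms : ℝ) * (2 * (C' * μ₂ ^ n)) ^ ρ < 1 := by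
    refine lt_of_le_of_lt ?_ h5'
    exact mul_le_mul_of_nonneg_right hms2 (by positivity)
  have k2 : (mu : ℝ) ^ (ρ - 1) * (2 * (C' * l₁⁻¹ ^ n)) ^ ρ < 1 := by
    refine lt_of_le_of_lt ?_ h6'
    apply mul_le_mul_of_nonneg_right _ (by positivity)
    exact Real.rpow_le_rpow (by positivity) hmu2 (by linarith)
  obtain ⟨ds, hds⟩ := rank_const S
  obtain ⟨du, hdu⟩ := rank_const S.symm
  have : ProperSpace E := FiniteDimensional.proper_real E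
  have hX : ULC M := ulc_of_charted (X := M) (E := E)
  exact pgA h1 h2 h3 h5 h6 S hX ds du ms mu (2 * (C' * μ₂ ^ n)) (2 * (C' * l₁⁻¹ ^ n)) ρ hds hdu
    (by positivity) (by positivity) (by rw [hSa]; linarith) (by rw [hSb]; linarith) h3' h4'
    (by rw [hSLs]; exact hms1) (by rw [hSLu]; exact hmu1) hρ k1 k2

end manifold

end Pool.Agent.Q192.PG
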