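import Pool.Agent.Q192.PI.StmB
import Pool.Agent.Q192.PI.A3
import Pool.Agent.Y330.J.A7

/-!
# Project PG: polynomial growth of the fundamental group, exact statements of the lemmas

Every lemma is a `Prop` here (`SG1`, ..., `SG12`). Prove `theorem sG1 : SG1` etc. in the file named
in the job. A lemma may use the other ones as hypotheses only where this is written.
Library: Y330/J (A1 ... A7: `LPath`, `cl`, `Ex`, `NF`, `swap_cl`, `hom_unique`, `growth`),
Q192/PI (`Pieces`, `Nice`, `LR`, `Rad`, `Cn`; part B: `Sc`, `Cht`, `HolT`).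
-/

set_option autoImplicit false

open Filter Topology Set Metric
open scoped Pointwise

namespace Pool.Agent.Q192.PG

open Pool.Agent.H721R2 Pool.Agent.H779R2.An Pool.Agent.Q130.UQ Pool.Agent.H789R2.AN
  Pool.Agent.H789R2.GP Pool.Agent.TH304.K289 Pool.Agent.TH289.L Pool.Agent.Y330.H Pool.Agent.Y330.G
  Pool.Agent.Y330.J Pool.Agent.Q192.PI Pool.Agent.Q192.PI.B

universe u v

/-- Words: the class `α` is a product of `n` steps, each of them a nice small unstable path followed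
by a nice small stable path. -/
inductive Wd {X : Type u} [MetricSpace X] (g : X ≃ₜ X) (ρ δ : ℝ) (ms mu : ℕ) :
    ℕ → ∀ {x z : X}, Path.Homotopic.Quotient x z → Prop
  | nil (x : X) : Wd g ρ δ ms mu 0 (Path.Homotopic.Quotient.refl x)
  | snoc {n : ℕ} {x y w z : X} {α : Path.Homotopic.Quotient x y} (p : Path y w) (q : Path w z) :
      Wd g ρ δ ms mu n α → LPath g.symm p → Nice g.symm δ mu 1 (fun t => p t) → LPath g q →
      Nice g ρ ms 1 (fun t => q t) → Wd g ρ δ ms mu (n + 1) ((α.trans (cl p)).trans (cl q))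

/-- The class `α` is the product of an unstable and a stable path of level at most `l`. -/
def Nd {X : Type u} [MetricSpace X] (g : X ≃ₜ X) (c : ℝ) (l : ℕ) {x z : X}
    (α : Path.Homotopic.Quotient x z) : Prop :=
  ∃ (y : X) (p : Path x y) (q : Path y z), LPath g.symm p ∧ LPath g q ∧
    α = (cl p).trans (cl q) ∧ (∀ m ≥ l, dist (g.symm^[m] x) (g.symm^[m] y) ≤ c / 2) ∧
    ∀ m ≥ l, dist (g^[m] y) (g^[m] z) ≤ c / 2

/-- **SG1** (counting). Proof: the second half of the proof of `growth` in Y330/J/A6.lean: for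
`α ∈ S ^ n` the class is determined by `y` (`hom_unique`), and `y` is determined by the colours of
`g^m (g^-l y)`, `m ≤ 2 l` (`col_eq` with `i = j = l`), `l = A log₂ (n + 1) + B`, so
`ncard (S ^ n) ≤ (Q + 1) ^ (2 l + 1)`; `d = 2 A Q` (`Q + 1 ≤ 2 ^ Q`,
`2 ^ log₂ (n + 1) ≤ n + 1`) does not depend on `x`, `S`. -/
def SG1 : Prop := ∀ (X : Type u) [MetricSpace X] [CompactSpace X] (g : X ≃ₜ X) (c : ℝ), LP g c →
  ULC X → ∀ A : ℕ, (∀ (x : X) (S : Set (FundamentalGroup X x)), S.Finite → ∃ B : ℕ, ∀ n : ℕ,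
    ∀ α ∈ S ^ n, Nd g c (A * Nat.log 2 (n + 1) + B) (x := x) (z := x) α) → PG X

/-- **SG2** (all classes are words).
Proof. As `nf_small` and `nf_all` in Y330/J (A2, A3). A small path is homotopic to
`p₁.trans q₁.symm` with `p₁` a small path in the unstable leaf and `q₁.symm` one in the stable leaf
(choose the corner `w` by `hg.lp` so close that `SR g.symm δ' x w` and `SR g δ' w z` for the radii
`δ'` of `Rad`). `Rad` with the constant path at `w` (`z`) gives nice paths `r ↦ H (r, 0)` from `x` to `w` and from `w` to `z`; they are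
`LPath`s (`lpath_of_sm`), and `hom_unique` shows that the class does not change. So small paths are
words with one step (`snoc` after `nil`; `refl_trans`). Words can be concatenated (induction on the
second word, `trans_assoc`); then use `interval_induct` as in `nf_all`. -/
def SG2 : Prop := ∀ (X : Type u) [MetricSpace X] [CompactSpace X] (g : X ≃ₜ X) (c : ℝ), LP g c →
  ULC X → ∀ (ρ δ : ℝ) (ms mu : ℕ), 0 < ρ → 0 < δ → Rad g ρ ms → Rad g.symm δ mu →
  ∀ (x z : X) (α : Path.Homotopic.Quotient x z), ∃ L, Wd g ρ δ ms mu L α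

/-- **SG3** (products of generators are words of linear length).
Proof. Words can be concatenated, and they can be padded with constant steps (constant paths are
nice). So there is `L` such that all elements of `S` are words with exactly `L` steps, and all
elements of `S ^ n` are words with `L * n` steps. (`FundamentalGroup.mul_def`,
`FundamentalGroup.one_def`.) -/
def SG3 : Prop := ∀ (X : Type u) [MetricSpace X] (g : X ≃ₜ X) (ρ δ : ℝ) (ms mu : ℕ), 0 < ρ →
  0 < δ → 1 ≤ ms → 1 ≤ mu → (∀ (x z : X) (α : Path.Homotopic.Quotient x z), ∃ L, Wd g ρ δ ms mu L α) →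
  ∀ (x : X) (S : Set (FundamentalGroup X x)), S.Finite →
    ∃ L : ℕ, ∀ n : ℕ, ∀ α ∈ S ^ n, Wd g ρ δ ms mu (L * n) (x := x) (z := x) α

/-- **SG4** (many pushes, with sizes). This is `SA3` of project PI with more information; adapt
Q192/PI/A2.lean and A3.lean (helper98): in `SA2` add `∀ s t, SR g.symm r (R s 0) (R s t)` (it is
`b4` in the proof of `sA2`), in the induction of `sA3` (start with size `ρ₁`; the sizes
`ρ₁ + 2 i β^n r ≤ 2 ρ` are used with the hypothesis on `N`) remember for the strip `Γ` over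
`t ↦ v (min t (θ i))` starting at `g^n (p 1)` that `Γ t` and `Γ t'` are `SR g.symm (2 * r)` related
if `t`, `t'` lie in the same piece. `p'` is the last `pi`; `R s 1 = g^n (p' s)` and
`R 1 t = (Γ t).y` by uniqueness of strips (`Rc.strip`, `strip_unique`). -/
def SG4 : Prop := ∀ (X : Type u) [MetricSpace X] [CompactSpace X] (g : X ≃ₜ X) (c : ℝ), LP g c →
  ∀ (εs α β δ r ρ ρ₁ : ℝ) (n N J : ℕ), 0 ≤ α → α ≤ 1 → 0 ≤ β → β ≤ 1 → 0 < r → 0 < ρ₁ →
  2 * ρ + 2 * r ≤ εs → Cn g εs α → Cn g.symm εs β → LR g δ r → N * (α ^ n * (2 * ρ)) ≤ δ →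
  ρ₁ + 2 * (J * (β ^ n * r)) ≤ 2 * ρ →
  ∀ p : C(unitInterval, SM g), Pieces g ρ₁ N (fun t => (p t).val) →
  ∀ v : C(unitInterval, SM g.symm), (v 0).val = g^[n] (p 0).val →
    Pieces g.symm δ J (fun t => (v t).val) →
  ∃ (R : unitInterval → unitInterval → X) (p' : C(unitInterval, SM g)), Rc g R ∧
    (∀ s, R s 0 = g^[n] (p s).val) ∧ (∀ t, R 0 t = (v t).val) ∧
    (∀ s, g^[n] (p' s).val = R s 1) ∧
    Pieces g (ρ₁ + 2 * (J * (β ^ n * r))) N (fun t => (p' t).val) ∧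
    Pieces g.symm (2 * r) J (fun t => R 1 t)

/-- **SG5** (words have small levels, pinched case), from `SG4`.
Proof. Induction on the word; after `j` steps the class is `(cl P).trans (cl Q)` with
`Pieces g (ρ + 2 (j mu^m) β^(k+m) r) (j ms^k) (fun t => g.symm^[k] (Q t))` and
`Pieces g.symm (2 r) (j mu^m) (fun t => g^[m] (P t))`. Step, `p : y → w`, `q : w → z`: apply `SG4`
with `n := k + m` to the stable path `t ↦ g.symm^[k] (Q.symm t)`, `N = j ms^k`, and the unstable path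
`t ↦ g^[m] (p t)`, `J = mu^m` (`Nice g.symm δ mu 1` at the time `m`; `g.symm.symm = g` by `rfl`).
`(s, t) ↦ g.symm^[m] (R s t)` (`Rc.iter'`) is a rectangle with left side `p`, bottom `Q.symm`, so
(`Rc.right`, `Rc.top`, `swap_cl`, compare `NF.trans` in Y330/J/A2) the class of the longer word is
`cl (P.trans (right side))` times `cl ((top side).symm.trans q)`; `g.symm^[k]` of the top side is
`p'`, `g^[m]` of the right side is `R 1`. (There is no path with `0` pieces, so treat the word with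
`0` steps separately and start the induction with the words with one step.) Needed: `Pieces` under `symm`, `trans` and `mono`.
At the end: `pieces_con` (Q192/PI/A2) at the times `k + m'` from `-k`, and `m + m'` backwards from
`m`, `m' ≥ k + m`, gives the levels (`δ ≤ c / 2`, `ρ ≤ c / 2`). -/
def SG5 : Prop := ∀ (X : Type u) [MetricSpace X] [CompactSpace X] (g : X ≃ₜ X) (c : ℝ), LP g c →
  ∀ (εs α β δ r ρ : ℝ) (ms mu : ℕ), 0 ≤ α → α ≤ 1 → 0 ≤ β → β ≤ 1 → 0 < r → 0 < ρ → 0 < δ →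
  2 * ρ + 2 * r ≤ εs → δ ≤ c / 2 → ρ ≤ c / 2 → Cn g εs α → Cn g.symm εs β → LR g δ r →
  ∀ L k m : ℕ, ((L * ms ^ k : ℕ) : ℝ) * (α ^ (k + m) * (2 * ρ)) ≤ δ →
  2 * (((L * mu ^ m : ℕ) : ℝ) * (β ^ (k + m) * r)) ≤ ρ →
  ∀ (x z : X) (a : Path.Homotopic.Quotient x z), Wd g ρ δ ms mu L a → Nd g c (k + m) a

/-- **SG6** (numerical, pinched case).
Proof. Let `θ < 1` be the larger one of `ms α^ρ` and `mu^(ρ-1) β^ρ`; for `k` put
`m = ⌈(ρ - 1) k⌉₊`. Then `ms^k α^(k+m) ≤ θ^k` and `mu^m β^(k+m) ≤ mu θ^k`. Take the smallest `k` with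
`C L mu θ^k ≤ 1`; it is at most `A₀ log₂ (L + 1) + B₀`. -/
def SG6 : Prop := ∀ (α β ρ : ℝ) (ms mu : ℕ), 0 < α → α < 1 → 0 < β → β < 1 → 1 ≤ ρ → 1 ≤ ms →
  1 ≤ mu → ms * α ^ ρ < 1 → (mu : ℝ) ^ (ρ - 1) * β ^ ρ < 1 → ∃ A : ℕ, ∀ C : ℝ, ∃ B : ℕ, ∀ L : ℕ,
  ∃ k m : ℕ, k + m ≤ A * Nat.log 2 (L + 1) + B ∧
    C * ((L * ms ^ k : ℕ) : ℝ) * α ^ (k + m) ≤ 1 ∧ C * ((L * mu ^ m : ℕ) : ℝ) * β ^ (k + m) ≤ 1

/-- Linear form of `WL` for the whole space. -/
def WLl {X : Type u} {E : Type v} [MetricSpace X] [NormedAddCommGroup E] [NormedSpace ℝ E]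
    (S : HypSys X E) (D : ℕ) (σ η β K R : ℝ) (ψ : X → V D → X) : Prop :=
  ∃ C > 0, ∀ y (T : ℕ) (φ : X → X), HolT S σ η T (ψ y '' ball 0 (R / 8)) φ →
    ∀ n : ℕ, C * K ^ (2 * D * T) * β ^ n ≤ 1 → ∀ w, ‖w‖ < R / 8 →
      S.URel (C * K ^ (2 * D * T) * β ^ n) (S.g.symm^[n] (φ y)) (S.g.symm^[n] (φ (ψ y w)))

/-- **SG7** (linear form of `WL`).
Proof. Let `C₀` be the constant of `WL` for `e = ε₀`, `C = (C₀ + 1) (1 + ε₀) / β` (so `C₀ ≤ C`).
Given `n` with `C K^(2DT) β^n ≤ 1` let `m ≤ n` be the largest number with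
`C₀ K^(2DT) β^(n - m) ≤ 1`. `WL` gives `URel ε₀` at the time `-(n - m)` and `Sc.uc` then
`URel (β^m ε₀)` at the time `-n`. If `m = n` then `β^m ε₀ = β^n ε₀ ≤ C K^(2DT) β^n`, otherwise
`C₀ K^(2DT) β^(n - m - 1) > 1`, so `β^m ≤ C₀ K^(2DT) β^(n - 1)`. -/
def SG7 : Prop := ∀ (X : Type u) (E : Type v) [MetricSpace X] [CompactSpace X]
  [NormedAddCommGroup E] [NormedSpace ℝ E] (S : HypSys X E) (D : ℕ) (ε₀ Q α β K L R σ η : ℝ)
  (ψ : X → V D → X), Sc S ε₀ Q α β K L → Cht S D ε₀ R ψ → WL S D σ η β K R ψ univ →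
  WLl S D σ η β K R ψ

/-- Stable chains of `p` steps of size `s`. -/
def Ch {X : Type u} {E : Type v} [MetricSpace X] [NormedAddCommGroup E] [NormedSpace ℝ E]
    (S : HypSys X E) (s : ℝ) (p : ℕ) (a b : X) : Prop :=
  ∃ c : ℕ → X, c 0 = a ∧ c p = b ∧ ∀ i < p, S.SRel s (c i) (c (i + 1))

/-- Quantitative transport of balls: if at the time `-k` the point `P` is reached from `y` by a
stable chain of `p` steps of size `s`, and if `C p α^(T+k) ≤ 1`, `C K^(2DT) β^k ≤ 1`, the ball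
around `y` can be transported to `P` with time `T`; at the time `-k` the image of the ball is tiny
and every point is joined to its image by a stable chain of the same kind. -/
def QT {X : Type u} {E : Type v} [MetricSpace X] [NormedAddCommGroup E] [NormedSpace ℝ E]
    (S : HypSys X E) (D : ℕ) (α β K R σ η : ℝ) (ψ : X → V D → X) (e C : ℝ) : Prop :=
  ∀ (y P : X) (s : ℝ) (p k T : ℕ), 0 ≤ s → s ≤ e → Ch S s p (S.g.symm^[k] y) (S.g.symm^[k] P) →
    C * p * α ^ (T + k) ≤ 1 → C * K ^ (2 * D * T) * β ^ k ≤ 1 →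
    ∃ φ : X → X, HolT S σ η T (ψ y '' ball 0 (R / 8)) φ ∧ φ y = P ∧
      ∀ w, ‖w‖ < R / 8 →
        S.URel (C * K ^ (2 * D * T) * β ^ k) (S.g.symm^[k] P) (S.g.symm^[k] (φ (ψ y w))) ∧
        Ch S (s + C * K ^ (2 * D * T) * β ^ k) p (S.g.symm^[k] (ψ y w))
          (S.g.symm^[k] (φ (ψ y w)))

/-- **SG8** (quantitative transport), from `WLl`.
Proof. The induction in the proof of `sB10` (Q192/PI/B10.lean, helper174), for a given chain. Let
`C₀` be the constant of `WLl`, `e` small with respect to `η / Q`, `e₂ = 4 Q e ≤ η / 4`,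
`C ≥ 2 C₀`, `C₀ / C ≤ e`, `C ≥ e₂ / η`, `C ≥ C₀`. For `i ≤ p` there is `φ_i` with `HolT`,
`g^-k (φ_i y) = c i`, `dist (g^j (g^-k a)) (g^j (g^-k (φ_i a))) ≤ i e₂ α^j`, and a chain
`g^-k a = b 0, ..., b i = g^-k (φ_i a)` with steps `SRel (s + 2 t)`, `t = C₀ K^(2DT) β^k ≤ e`.
New here: by `WLl` all points are `URel t` near `c i` and `c (i + 1)` (for the new map apply `WLl`
again), so consecutive points are at distance at most `s + 2 t`, they are `SRel e₂` related, and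
`Geo.SRel_dist` (or `Sc.sc`, as `α ≤ 1`) gives `SRel (s + 2 t)`. -/
def SG8 : Prop := ∀ (X : Type u) (E : Type v) [MetricSpace X] [CompactSpace X]
  [NormedAddCommGroup E] [NormedSpace ℝ E] (S : HypSys X E) (D : ℕ) (ε₀ Q α β K L R σ η b : ℝ)
  (ψ : X → V D → X), Sc S ε₀ Q α β K L → Cht S D ε₀ R ψ → Scale ε₀ R Q L σ η b →
  WLl S D σ η β K R ψ → ∃ e > 0, ∃ C > 0, QT S D α β K R σ η ψ e C

/-- **SG9** (words have small levels, small distortion on the unstable bundle), from `QT`.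
Proof. Induction on the word; after `j` steps the class is `(cl P).trans (cl Q)`, `P : x → a`,
`Q : a → y`, with `Ch S (ρ + j t) (j ms^k) (g^-k y) (g^-k a)`, `t = C K^(2DT) β^k`, and
`URel (j t) (g^-k x) (g^-k a)`. Step `p : y → w`, `q : w → z`: `QT` with `P := a` gives `φ`
(`ρ + j t ≤ e` by the hypothesis on `C'`). All `p r` are in the ball (`SR g.symm δ y (p r)`,
`Cht.surj`, `Cht.ge`, as in `sB12`), so `r ↦ (p r, φ (p r))` is a strip over `p` starting at `a`
(see `hloc` in `sB12`, Q192/PI/B12.lean). Let `R'` be the rectangle (`Ex`) over `Q.symm` and `p`; by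
uniqueness of strips `R' 1 r = φ (p r)`. As in `NF.trans` (Y330/J/A2) the class of the longer word
is `cl (P.trans (right side))` times `cl ((top side).symm.trans q)`, and the new corner is `φ w`.
`QT` gives `URel t (g^-k a) (g^-k (φ w))` and a chain of `j ms^k` steps from `g^-k w` to
`g^-k (φ w)`; `Nice g ρ ms 1 q` at the time `k` gives one of `ms^k` steps of size `ρ` from
`g^-k z` to `g^-k w`. At the end: the chain (steps `SRel (2 ρ)`, `2 ρ ≤ ε₀`, `Sc.sc`) gives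
`dist (g^m a) (g^m z) ≤ L ms^k α^(m+k) 2 ρ` for `m ≥ k + T`. -/
def SG9 : Prop := ∀ (X : Type u) (E : Type v) [MetricSpace X] [CompactSpace X]
  [NormedAddCommGroup E] [NormedSpace ℝ E] (S : HypSys X E) (D : ℕ) (ε₀ Q α β K L R σ η b c : ℝ)
  (ψ : X → V D → X) (e C : ℝ), LP S.g c → Ex S.g → Sc S ε₀ Q α β K L → Cht S D ε₀ R ψ →
  Scale ε₀ R Q L σ η b → 0 < e → 0 < C → QT S D α β K R σ η ψ e C →
  ∀ (ρ δ : ℝ) (ms mu : ℕ), 0 < ρ → 2 * ρ ≤ e → 2 * ρ ≤ ε₀ → 0 < δ → 32 * δ ≤ R →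
  ∃ C' > 0, ∀ n k T : ℕ, C' * ((n * ms ^ k : ℕ) : ℝ) * α ^ (T + k) ≤ 1 →
    C' * n * K ^ (2 * D * T) * β ^ k ≤ 1 →
    ∀ (x z : X) (a : Path.Homotopic.Quotient x z), Wd S.g ρ δ ms mu n a → Nd S.g c (k + T) a

/-- **SG10** (numerical). Proof: logarithms, compare `sB14` (Q192/PI/B14.lean): let `k` be large and
`T` the smallest number with `C L ms^k α^(T+k) ≤ 1`; then
`T ≤ k (log ms / log (1/α) - 1) + C' + C'' log (L + 1)` (or `T = 0`), and the second condition holds if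
`k ≥ A log (L + 1) + B'`. -/
def SG10 : Prop := ∀ (α β K : ℝ) (ms D : ℕ), 0 < α → α < 1 → 0 < β → β < 1 → 1 ≤ K → 1 ≤ ms →
  2 * D * Real.log K * (Real.log ms - Real.log α⁻¹) < Real.log α⁻¹ * Real.log β⁻¹ →
  ∃ A : ℕ, ∀ C : ℝ, ∃ B : ℕ, ∀ n : ℕ, ∃ k T : ℕ, k + T ≤ A * Nat.log 2 (n + 1) + B ∧
    C * ((n * ms ^ k : ℕ) : ℝ) * α ^ (T + k) ≤ 1 ∧ C * n * K ^ (2 * D * T) * β ^ k ≤ 1

end Pool.Agent.Q192.PG
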